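import Pool.Agent.Helper83.OP.Defs
import Pool.Agent.Helper83.OP.Sampling
import Pool.Agent.Helper83.OP.Mader

/-! # Few links between disjoint clusters, for links of bounded length -/

namespace Pool.Agent.Helper63.UP

open Pool.Agent.Helper83.OP Set

private def cnf {V : Type} (H : SimpleGraph V) (cl : V → V)
    (X : Sym2 V → Sym2 V → Prop) (E0 : Set (Sym2 V)) : Set V :=
  {s | ∃ f ∈ E0, ∃ f' ∈ H.edgeSet, X f f' ∧ ∃ x ∈ f', cl x = s}

private theorem cnf_card {V : Type} [Finite V] (H : SimpleGraph V) (cl : V → V)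
    (X : Sym2 V → Sym2 V → Prop) (m : ℕ)
    (hX : ∀ f ∈ H.edgeSet, {f' | f' ∈ H.edgeSet ∧ X f f'}.ncard ≤ m)
    (E0 : Set (Sym2 V)) (hE : E0 ⊆ H.edgeSet) : (cnf H cl X E0).ncard ≤ 2 * m * E0.ncard := by
  classical
  have : Fintype V := Fintype.ofFinite V
  let part : Sym2 V → Finset (Sym2 V) := fun f =>
    Finset.univ.filter fun f' => f' ∈ H.edgeSet ∧ X f f'
  let nd : Sym2 V → Finset V := fun f' => (Finset.univ.filter fun x => x ∈ f').image cl
  have hnd : ∀ f', (nd f').card ≤ 2 := by
    intro f'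
    refine Finset.card_image_le.trans ?_
    induction f' with
    | h a b =>
      have : (Finset.univ.filter fun x => x ∈ s(a, b)) ⊆ {a, b} := by
        intro x hx
        have := (Finset.mem_filter.1 hx).2
        rw [Sym2.mem_iff] at this
        simpa using this
      exact (Finset.card_le_card this).trans Finset.card_le_two
  have hpart : ∀ f ∈ H.edgeSet, (part f).card ≤ m := by
    intro f hf
    rw [← Set.ncard_coe_finset]
    refine le_trans (le_of_eq ?_) (hX f hf)
    congr 1
    ext f'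
    simp [part]
  have hE0 : E0.Finite := Set.toFinite _
  have hsub : cnf H cl X E0 ⊆
      ((hE0.toFinset.biUnion fun f => (part f).biUnion nd : Finset V) : Set V) := by
    rintro s ⟨f, hf, f', hf', hXf, x, hx, rfl⟩
    rw [Finset.mem_coe, Finset.mem_biUnion]
    refine ⟨f, hE0.mem_toFinset.2 hf, Finset.mem_biUnion.2 ⟨f', ?_, ?_⟩⟩
    · exact Finset.mem_filter.2 ⟨Finset.mem_univ _, hf', hXf⟩
    · exact Finset.mem_image.2 ⟨x, Finset.mem_filter.2 ⟨Finset.mem_univ _, hx⟩, rfl⟩
  refine (Set.ncard_le_ncard hsub (Finset.finite_toSet _)).trans ?_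
  rw [Set.ncard_coe_finset]
  refine (Finset.card_biUnion_le_card_mul _ _ (2 * m) ?_).trans ?_
  · intro f hf
    have hf' := hE (hE0.mem_toFinset.1 hf)
    refine (Finset.card_biUnion_le_card_mul _ _ 2 fun f' _ => hnd f').trans ?_
    have := hpart f hf'
    omega
  · rw [Set.ncard_eq_toFinset_card _ hE0]
    exact le_of_eq (by ring)

theorem dart_count {V : Type} [Finite V] (Γ : SimpleGraph V) :
    {e : V × V | Γ.Adj e.1 e.2}.ncard = 2 * Γ.edgeSet.ncard := by
  classical
  have := Fintype.ofFinite V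
  have h1 := Γ.dart_card_eq_twice_card_edges
  have h2 : Γ.edgeFinset.card = Γ.edgeSet.ncard := by
    rw [← Set.ncard_coe_finset, SimpleGraph.coe_edgeFinset]
  rw [← h2, ← h1, ← Nat.card_eq_fintype_card, ← Nat.card_coe_set_eq]
  exact Nat.card_congr
    { toFun := fun e => ⟨e.1, e.2⟩
      invFun := fun d => ⟨d.toProd, d.adj⟩
      left_inv := fun _ => rfl
      right_inv := fun _ => rfl }

/-- **Sampling bound.** `Q` is a graph on disjoint clusters (the fibres of `cl` over `S`) whose
links are realised by walks of `H` of length at most `L` inside the two clusters; the crossing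
relation is planar-like with at most `m` partners per edge. Then `Q` has few links. -/
theorem gb {V : Type} [Finite V] (H Q : SimpleGraph V) (X : Sym2 V → Sym2 V → Prop) (m L : ℕ)
    (hX : ∀ f ∈ H.edgeSet, {f' | f' ∈ H.edgeSet ∧ X f f'}.ncard ≤ m) (hP : PlanarLike H X)
    (cl : V → V) (S : Set V)
    (hQ : ∀ s t, Q.Adj s t → s ∈ S ∧ t ∈ S ∧ ∃ p : H.Walk s t, p.length ≤ L ∧
      ∀ x ∈ p.support, cl x = s ∨ cl x = t) :
    {e : V × V | Q.Adj e.1 e.2}.ncard ≤ 24 * (4 * m * L + 1) * S.ncard := by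
  classical
  have : Fintype V := Fintype.ofFinite V
  set M : ℕ := 4 * m * L with hM
  set J : Set (V × V) := {e : V × V | Q.Adj e.1 e.2} with hJ
  have hQ1 : ∀ s t, Q.Adj s t → s ∈ S := fun s t h => (hQ s t h).1
  have hQ2 : ∀ s t, Q.Adj s t → t ∈ S := fun s t h => (hQ s t h).2.1
  have hQ3 : ∀ s t, Q.Adj s t → ∃ p : H.Walk s t, p.length ≤ L ∧
      ∀ x ∈ p.support, cl x = s ∨ cl x = t := fun s t h => (hQ s t h).2.2
  choose P hP1 hP2 using hQ3
  -- route edges
  let E1 : V → V → Set (Sym2 V) := fun s t => {f | ∃ h : Q.Adj s t, f ∈ (P s t h).edges}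
  let E0 : V → V → Set (Sym2 V) := fun s t => E1 s t ∪ E1 t s
  have hE1H : ∀ s t, E1 s t ⊆ H.edgeSet := by
    rintro s t f ⟨h, hf⟩
    exact SimpleGraph.Walk.edges_subset_edgeSet _ hf
  have hE0H : ∀ s t, E0 s t ⊆ H.edgeSet := fun s t => Set.union_subset (hE1H s t) (hE1H t s)
  have hE1c : ∀ s t, (E1 s t).ncard ≤ L := by
    intro s t
    by_cases h : Q.Adj s t
    · have hsub : E1 s t ⊆ ((P s t h).edges.toFinset : Set (Sym2 V)) := by
        rintro f ⟨_, hf⟩
        simpa using hf
      refine (Set.ncard_le_ncard hsub (Finset.finite_toSet _)).trans ?_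
      rw [Set.ncard_coe_finset]
      refine (List.toFinset_card_le _).trans ?_
      rw [SimpleGraph.Walk.length_edges]
      exact hP1 s t h
    · have : E1 s t = ∅ := by
        ext f
        simp only [Set.mem_empty_iff_false, iff_false]
        rintro ⟨h', _⟩
        exact h h'
      rw [this, Set.ncard_empty]
      exact Nat.zero_le _
  have hE0c : ∀ s t, (E0 s t).ncard ≤ 2 * L := by
    intro s t
    refine (Set.ncard_union_le _ _).trans ?_
    have := hE1c s t
    have := hE1c t s
    omega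
  have hsym : ∀ s t, E0 s t = E0 t s := fun s t => Set.union_comm _ _
  -- every route edge has an end in the clusters
  have hend1 : ∀ s t, ∀ f ∈ E1 s t, ∃ x ∈ f, cl x = s ∨ cl x = t := by
    rintro s t f ⟨h, hf⟩
    induction f with
    | h a b =>
      exact ⟨a, Sym2.mem_mk_left a b, hP2 s t h a (SimpleGraph.Walk.fst_mem_support_of_mem_edges _ hf)⟩
  have hend : ∀ s t, ∀ f ∈ E0 s t, ∃ x ∈ f, cl x = s ∨ cl x = t := by
    rintro s t f (hf | hf)
    · exact hend1 s t f hf
    · obtain ⟨x, hx, hx2⟩ := hend1 t s f hf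
      exact ⟨x, hx, hx2.symm⟩
  -- sampling data
  let A : J → Finset S := fun e => Finset.univ.filter fun s : S =>
    (s : V) = e.1.1 ∨ (s : V) = e.1.2
  let Fc : J → Finset S := fun e => Finset.univ.filter fun s : S =>
    (s : V) ∈ cnf H cl X (E0 e.1.1 e.1.2) ∧ (s : V) ≠ e.1.1 ∧ (s : V) ≠ e.1.2
  have hA : ∀ e, (A e).card = 2 := by
    intro e
    have h3 : Q.Adj e.1.1 e.1.2 := e.2
    have : A e = {⟨e.1.1, hQ1 _ _ h3⟩, ⟨e.1.2, hQ2 _ _ h3⟩} := by
      ext s
      simp only [A, Finset.mem_filter, Finset.mem_univ, true_and, Finset.mem_insert,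
        Finset.mem_singleton, Subtype.ext_iff]
    rw [this, Finset.card_pair]
    intro h
    exact h3.ne (congrArg Subtype.val h)
  have hFc : ∀ e, (Fc e).card ≤ M := by
    intro e
    have h1 : (Fc e).card = ((Fc e).map (Function.Embedding.subtype _)).card :=
      (Finset.card_map _).symm
    rw [h1, ← Set.ncard_coe_finset]
    have h2 : (((Fc e).map (Function.Embedding.subtype _) : Finset V) : Set V) ⊆
        cnf H cl X (E0 e.1.1 e.1.2) := by
      intro s hs
      simp only [Finset.coe_map, Function.Embedding.subtype_apply, Set.mem_image,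
        Finset.mem_coe] at hs
      obtain ⟨s', hs', rfl⟩ := hs
      exact (Finset.mem_filter.1 hs').2.1
    refine (Set.ncard_le_ncard h2 (Set.toFinite _)).trans ?_
    refine (cnf_card H cl X m hX (E0 e.1.1 e.1.2) (hE0H _ _)).trans ?_
    calc 2 * m * (E0 e.1.1 e.1.2).ncard ≤ 2 * m * (2 * L) := Nat.mul_le_mul_left _ (hE0c _ _)
      _ = M := by rw [hM]; ring
  have hAF : ∀ e, Disjoint (A e) (Fc e) := by
    intro e
    rw [Finset.disjoint_left]
    intro s h1 h2
    have h3 := (Finset.mem_filter.1 h1).2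
    have h4 := (Finset.mem_filter.1 h2).2
    rcases h3 with h3 | h3
    · exact h4.2.1 h3
    · exact h4.2.2 h3
  have : Fintype J := Fintype.ofFinite J
  have hT : ∀ T : Finset S,
      (Finset.univ.filter (fun e => A e ⊆ T ∧ Disjoint (Fc e) T)).card ≤ 8 * T.card + 0 := by
    intro T
    set T' : Set V := (fun s : S => (s : V)) '' (T : Set S) with hT'
    have hTc : T'.ncard = T.card := by
      rw [hT', Set.ncard_image_of_injective _ Subtype.val_injective, Set.ncard_coe_finset]
    let Γ : SimpleGraph V :=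
      { Adj := fun s t => Q.Adj s t ∧ s ∈ T' ∧ t ∈ T' ∧
          ∀ x ∈ T', x ∈ cnf H cl X (E0 s t) → x = s ∨ x = t
        symm := ⟨by
          rintro s t ⟨he, h3, h4, h5⟩
          refine ⟨he.symm, h4, h3, ?_⟩
          intro x hx hx2
          rw [hsym] at hx2
          exact (h5 x hx hx2).symm⟩
        loopless := ⟨by
          rintro s ⟨he, _⟩
          exact he.ne rfl⟩ }
    have hΓ : ∀ s t, Γ.Adj s t → Q.Adj s t := fun s t h => h.1
    have hmod := hP Γ (fun s t h => P s t (hΓ s t h)) (by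
      intro s t s' t' h h' n1 n2 n3 n4
      refine ⟨?_, ?_⟩
      · intro v hv hv'
        rcases hP2 s t (hΓ s t h) v hv with h1 | h1
        · rcases hP2 s' t' (hΓ s' t' h') v hv' with h2 | h2
          · exact n1 (h1.symm.trans h2)
          · exact n2 (h1.symm.trans h2)
        · rcases hP2 s' t' (hΓ s' t' h') v hv' with h2 | h2
          · exact n3 (h1.symm.trans h2)
          · exact n4 (h1.symm.trans h2)
      · intro f hf f' hf' hXf
        obtain ⟨e1, e2, e3, e4⟩ := h
        obtain ⟨e1', e2', e3', e4'⟩ := h'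
        have hfE : f ∈ E0 s t := Or.inl ⟨e1, hf⟩
        have hfE' : f' ∈ E0 s' t' := Or.inl ⟨e1', hf'⟩
        obtain ⟨x, hx, hx2⟩ := hend s' t' f' hfE'
        have hxT : cl x ∈ T' := by
          rcases hx2 with h0 | h0
          · rw [h0]; exact e2'
          · rw [h0]; exact e3'
        have hxc : cl x ∈ cnf H cl X (E0 s t) :=
          ⟨f, hfE, f', hE0H _ _ hfE', hXf, x, hx, rfl⟩
        rcases e4 _ hxT hxc with h1 | h1
        · rcases hx2 with h0 | h0
          · exact n1 (h1.symm.trans h0)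
          · exact n2 (h1.symm.trans h0)
        · rcases hx2 with h0 | h0
          · exact n3 (h1.symm.trans h0)
          · exact n4 (h1.symm.trans h0))
    have hfe := few_edges Γ T' (by
      rintro s t ⟨he, h3, h4, h5⟩
      exact ⟨h3, h4⟩) hmod.1
    have hcount : (Finset.univ.filter (fun e => A e ⊆ T ∧ Disjoint (Fc e) T)).card ≤
        {e : V × V | Γ.Adj e.1 e.2}.ncard := by
      rw [← Set.ncard_coe_finset]
      refine Set.ncard_le_ncard_of_injOn (fun e : J => (e : V × V)) ?_ ?_
        (Set.toFinite _)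
      · intro e he
        obtain ⟨h1, h2⟩ := (Finset.mem_filter.1 (Finset.mem_coe.1 he)).2
        have h3 : Q.Adj e.1.1 e.1.2 := e.2
        refine ⟨h3, ?_, ?_, ?_⟩
        · exact ⟨⟨e.1.1, hQ1 _ _ h3⟩,
            Finset.mem_coe.2 (h1 (Finset.mem_filter.2 ⟨Finset.mem_univ _, Or.inl rfl⟩)), rfl⟩
        · exact ⟨⟨e.1.2, hQ2 _ _ h3⟩,
            Finset.mem_coe.2 (h1 (Finset.mem_filter.2 ⟨Finset.mem_univ _, Or.inr rfl⟩)), rfl⟩
        · rintro x ⟨s, hs, rfl⟩ hx
          by_contra hcon
          rw [not_or] at hcon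
          exact Finset.disjoint_left.1 h2
            (Finset.mem_filter.2 ⟨Finset.mem_univ _, hx, hcon.1, hcon.2⟩) (Finset.mem_coe.1 hs)
      · intro e _ e' _ hee
        exact Subtype.ext hee
    rw [dart_count Γ] at hcount
    rw [hTc] at hfe
    omega
  have hS := sampling A Fc 2 M hA hFc hAF 8 0 hT
  have hc1 : Fintype.card J = J.ncard := by
    rw [← Nat.card_eq_fintype_card, Nat.card_coe_set_eq]
  have hc2 : Fintype.card S = S.ncard := by
    rw [← Nat.card_eq_fintype_card, Nat.card_coe_set_eq]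
  rw [hc1, hc2] at hS
  have h5 : (M + 1) * J.ncard ≤ (M + 1) * (24 * (M + 1) * S.ncard) := by
    calc (M + 1) * J.ncard ≤ 3 * (M + 1) ^ 2 * (8 * S.ncard + (M + 1) * 0) := hS
      _ = (M + 1) * (24 * (M + 1) * S.ncard) := by ring
  exact Nat.le_of_mul_le_mul_left h5 (Nat.succ_pos M)

end Pool.Agent.Helper63.UP
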