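import Pool.Agent.Helper63.UP.Defs

/-! # Additively weighted Voronoi cells -/

namespace Pool.Agent.Helper63.UP

open Pool.Agent.Helper83.OP Set

/-- greedy choice of the centres: disjoint balls, and every ball meets the ball of a centre of
smaller radius -/
theorem centres {V : Type} [Finite V] (R : V → ℕ) (meet : V → V → Prop)
    (hsymm : ∀ x y, meet x y → meet y x) (hrefl : ∀ x, meet x x) :
    ∃ C : Set V, (∀ c ∈ C, ∀ c' ∈ C, c ≠ c' → ¬ meet c c') ∧
      ∀ x, ∃ c ∈ C, R c ≤ R x ∧ meet x c := by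
  classical
  have := Fintype.ofFinite V
  obtain ⟨idx, hidx, hlt⟩ : ∃ idx : V → ℕ, Function.Injective idx ∧
      ∀ v, idx v < Fintype.card V + 1 :=
    ⟨fun v => (Fintype.equivFin V v : ℕ), fun a b h => (Fintype.equivFin V).injective (Fin.ext h),
      fun v => Nat.lt_succ_of_lt (Fintype.equivFin V v).2⟩
  set N := Fintype.card V + 1 with hN
  set f : V → ℕ := fun v => R v * N + idx v with hf
  have hfinj : Function.Injective f := by
    intro a b h
    have h1 : (R a * N + idx a) % N = (R b * N + idx b) % N := congrArg (· % N) h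
    rw [Nat.mul_add_mod_self_right, Nat.mul_add_mod_self_right, Nat.mod_eq_of_lt (hlt a),
      Nat.mod_eq_of_lt (hlt b)] at h1
    exact hidx h1
  have hfR : ∀ a b, f a < f b → R a ≤ R b := by
    intro a b h
    by_contra hcon
    push Not at hcon
    have h1 : (R b + 1) * N ≤ R a * N := Nat.mul_le_mul_right _ hcon
    have h2 := hlt b
    have h3 : f a < f b := h
    simp only [hf] at h3
    rw [add_mul, one_mul] at h1
    omega
  let P : V → Prop := (InvImage.wf f Nat.lt_wfRel.wf).fix
    (C := fun _ => Prop) (fun x ih => ∀ y (h : f y < f x), ih y h → ¬ meet x y)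
  have hP : ∀ x, P x ↔ ∀ y, f y < f x → P y → ¬ meet x y := by
    intro x
    have := WellFounded.fix_eq (InvImage.wf f Nat.lt_wfRel.wf)
      (C := fun _ => Prop) (fun x ih => ∀ y (h : f y < f x), ih y h → ¬ meet x y) x
    exact iff_of_eq this
  refine ⟨{x | P x}, ?_, ?_⟩
  · intro c hc c' hc' hne hm
    rcases lt_trichotomy (f c) (f c') with h | h | h
    · exact (hP c').1 hc' c h hc (hsymm _ _ hm)
    · exact hne (hfinj h)
    · exact (hP c).1 hc c' h hc' hm
  · intro x
    by_cases hx : P x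
    · exact ⟨x, hx, le_rfl, hrefl x⟩
    · rw [hP] at hx
      push Not at hx
      obtain ⟨y, h1, h2, h3⟩ := hx
      exact ⟨y, h2, hfR y x h1, h3⟩

theorem step_toward {V : Type} (G : SimpleGraph V) (hG : G.Connected) (v c : V)
    (h0 : G.dist v c ≠ 0) : ∃ u, G.Adj v u ∧ G.dist u c + 1 = G.dist v c := by
  obtain ⟨p, hp⟩ := hG.exists_walk_length_eq_dist v c
  cases p with
  | nil =>
    rw [SimpleGraph.Walk.length_nil] at hp
    exact absurd hp.symm h0
  | @cons _ u _ h q =>
    refine ⟨u, h, ?_⟩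
    have h1 : G.dist u c ≤ q.length := SimpleGraph.dist_le q
    have h2 : G.dist v c ≤ G.dist v u + G.dist u c := hG.dist_triangle
    have h3 : G.dist v u = 1 := SimpleGraph.dist_eq_one_iff_adj.2 h
    rw [SimpleGraph.Walk.length_cons] at hp
    omega

/-- the cells -/
structure Cells {V : Type} (G : SimpleGraph V) (R : V → ℕ) where
  ctr : V → V
  par : V → V
  dep : V → ℕ
  ctr_ctr : ∀ v, ctr (ctr v) = ctr v
  dep_zero : ∀ v, dep v = 0 ↔ ctr v = v
  par_adj : ∀ v, dep v ≠ 0 → G.Adj v (par v)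
  par_dep : ∀ v, dep v ≠ 0 → dep (par v) + 1 = dep v
  par_ctr : ∀ v, dep v ≠ 0 → ctr (par v) = ctr v
  ball : ∀ v u, G.dist (ctr v) u ≤ R (ctr v) → ctr u = ctr v
  rad : ∀ (v : V) (k : ℕ), k ≤ dep v → k ≤ R v + R (par^[k] v)

theorem exists_cells {V : Type} [Finite V] (G : SimpleGraph V) (hG : G.Connected) (R : V → ℕ)
    (hR : ∀ x y, R x ≤ R y + G.dist x y) : Nonempty (Cells G R) := by
  classical
  have := Fintype.ofFinite V
  obtain ⟨C, hC1, hC2⟩ := centres R (fun x y => ∃ u, G.dist x u ≤ R x ∧ G.dist y u ≤ R y)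
    (fun x y ⟨u, h1, h2⟩ => ⟨u, h2, h1⟩) (fun x => ⟨x, by simp, by simp⟩)
  obtain ⟨idx, hidx, hlt⟩ : ∃ idx : V → ℤ, Function.Injective idx ∧
      ∀ v, 0 ≤ idx v ∧ idx v < Fintype.card V + 1 :=
    ⟨fun v => ((Fintype.equivFin V v : ℕ) : ℤ), fun a b h =>
      (Fintype.equivFin V).injective (Fin.ext (by
        have h' : ((Fintype.equivFin V a : ℕ) : ℤ) = ((Fintype.equivFin V b : ℕ) : ℤ) := h
        exact_mod_cast h')),
      fun v => by
        have h' := (Fintype.equivFin V v).2
        show 0 ≤ ((Fintype.equivFin V v : ℕ) : ℤ) ∧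
          ((Fintype.equivFin V v : ℕ) : ℤ) < (Fintype.card V : ℤ) + 1
        omega⟩
  set N : ℤ := Fintype.card V + 1 with hN
  have hNpos : 0 < N := by positivity
  let key : V → V → ℤ := fun v c => ((G.dist v c : ℤ) - R c) * N + idx c
  have hkinj : ∀ v c c', key v c = key v c' → c = c' := by
    intro v c c' h
    have h1 : (((G.dist v c : ℤ) - R c) * N + idx c) % N =
        (((G.dist v c' : ℤ) - R c') * N + idx c') % N := congrArg (· % N) h
    rw [add_comm, Int.add_mul_emod_self_right, add_comm, Int.add_mul_emod_self_right,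
      Int.emod_eq_of_lt (hlt c).1 (hlt c).2, Int.emod_eq_of_lt (hlt c').1 (hlt c').2] at h1
    exact hidx h1
  have hkle : ∀ v c c', key v c ≤ key v c' →
      (G.dist v c : ℤ) - R c ≤ (G.dist v c' : ℤ) - R c' := by
    intro v c c' h
    by_contra hcon
    push Not at hcon
    have h1 : ((G.dist v c' : ℤ) - R c' + 1) * N ≤ ((G.dist v c : ℤ) - R c) * N :=
      mul_le_mul_of_nonneg_right hcon hNpos.le
    have h2 := hlt c
    have h3 := hlt c'
    simp only [key] at h
    rw [add_mul, one_mul] at h1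
    omega
  have hmin : ∀ v, ∃ c ∈ C, ∀ c' ∈ C, key v c ≤ key v c' := by
    intro v
    obtain ⟨c0, hc0, -⟩ := hC2 v
    obtain ⟨c, hc, h⟩ := Finset.exists_min_image C.toFinset (key v) ⟨c0, by simpa using hc0⟩
    exact ⟨c, by simpa using hc, fun c' hc' => h c' (by simpa using hc')⟩
  choose ctr hctrC hctrmin using hmin
  have hctr_uniq : ∀ v c, c ∈ C → (∀ c' ∈ C, key v c ≤ key v c') → ctr v = c := by
    intro v c hc h
    exact hkinj v _ _ (le_antisymm (hctrmin v c hc) (h _ (hctrC v)))
  -- balls around centres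
  have hball : ∀ c ∈ C, ∀ u, G.dist c u ≤ R c → ctr u = c := by
    intro c hc u hu
    apply hctr_uniq u c hc
    intro c' hc'
    by_cases hcc : c' = c
    · rw [hcc]
    · have h1 : ¬ ∃ u, G.dist c u ≤ R c ∧ G.dist c' u ≤ R c' := hC1 c hc c' hc' (Ne.symm hcc)
      have h2 : R c' < G.dist c' u := by
        by_contra h3
        exact h1 ⟨u, hu, by omega⟩
      have h3 : ((G.dist u c : ℤ) - R c) * N ≤ 0 * N := by
        refine mul_le_mul_of_nonneg_right ?_ hNpos.le
        rw [SimpleGraph.dist_comm]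
        omega
      have h4 : 1 * N ≤ ((G.dist u c' : ℤ) - R c') * N := by
        refine mul_le_mul_of_nonneg_right ?_ hNpos.le
        rw [SimpleGraph.dist_comm]
        omega
      have h5 := hlt c
      have h6 := hlt c'
      simp only [key]
      omega
  -- the parent
  have hpar : ∀ v, ∃ u, G.dist v (ctr v) ≠ 0 →
      G.Adj v u ∧ G.dist u (ctr v) + 1 = G.dist v (ctr v) := by
    intro v
    by_cases h0 : G.dist v (ctr v) = 0
    · exact ⟨v, fun h => absurd h0 h⟩
    · obtain ⟨u, h, h1⟩ := step_toward G hG v (ctr v) h0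
      exact ⟨u, fun _ => ⟨h, h1⟩⟩
  choose par hpar using hpar
  have hparctr : ∀ v, G.dist v (ctr v) ≠ 0 → ctr (par v) = ctr v := by
    intro v hv
    obtain ⟨h1, h2⟩ := hpar v hv
    apply hctr_uniq _ _ (hctrC v)
    intro c' hc'
    have h3 := hctrmin v c' hc'
    have h4 : G.dist v c' ≤ G.dist v (par v) + G.dist (par v) c' := hG.dist_triangle
    have h5 : G.dist v (par v) = 1 := SimpleGraph.dist_eq_one_iff_adj.2 h1
    have h6 : ((G.dist v c' : ℤ) - R c' - 1) * N ≤ ((G.dist (par v) c' : ℤ) - R c') * N :=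
      mul_le_mul_of_nonneg_right (by omega) hNpos.le
    have h7 : ((G.dist (par v) (ctr v) : ℤ) - R (ctr v)) = ((G.dist v (ctr v) : ℤ) - R (ctr v)) - 1 := by
      omega
    simp only [key] at h3 ⊢
    rw [h7, sub_mul, one_mul]
    rw [sub_mul, one_mul] at h6
    omega
  have hz : ∀ v, G.dist v (ctr v) = 0 ↔ ctr v = v := by
    intro v
    rw [hG.dist_eq_zero_iff]
    exact eq_comm
  have hpardep : ∀ v, G.dist v (ctr v) ≠ 0 →
      G.dist (par v) (ctr (par v)) + 1 = G.dist v (ctr v) := by
    intro v hv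
    rw [hparctr v hv]
    exact (hpar v hv).2
  have hiter : ∀ (k : ℕ) (v : V), k ≤ G.dist v (ctr v) →
      ctr (par^[k] v) = ctr v ∧ G.dist (par^[k] v) (ctr v) + k = G.dist v (ctr v) := by
    intro k
    induction k with
    | zero => intro v _; exact ⟨rfl, rfl⟩
    | succ k ih =>
      intro v hv
      have h0 : G.dist v (ctr v) ≠ 0 := by omega
      have h1 := hpardep v h0
      have h2 := hparctr v h0
      obtain ⟨h3, h4⟩ := ih (par v) (by omega)
      rw [Function.iterate_succ_apply]
      rw [h2] at h3 h4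
      refine ⟨h3, ?_⟩
      rw [h2] at h1
      omega
  refine ⟨{ ctr := ctr, par := par, dep := fun v => G.dist v (ctr v), ctr_ctr := ?_,
            dep_zero := hz, par_adj := fun v hv => (hpar v hv).1, par_dep := hpardep,
            par_ctr := hparctr, ball := ?_, rad := ?_ }⟩
  · intro v
    exact hball (ctr v) (hctrC v) _ (by simp)
  · intro v u hu
    exact hball (ctr v) (hctrC v) u hu
  · intro v k hk
    obtain ⟨h1, h2⟩ := hiter k v hk
    obtain ⟨c', hc', hRc, u, hu1, hu2⟩ := hC2 v
    have h3 := hkle v _ _ (hctrmin v c' hc')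
    have h4 : G.dist v c' ≤ R v + R c' := by
      have : G.dist v c' ≤ G.dist v u + G.dist u c' := hG.dist_triangle
      rw [G.dist_comm (u := u)] at this
      omega
    have h5 := hR (ctr v) (par^[k] v)
    rw [SimpleGraph.dist_comm] at h5
    show k ≤ R v + R (par^[k] v)
    omega

end Pool.Agent.Helper63.UP
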