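import Pool.Agent.Helper63.UP.Exits

/-! # Growth of balls in sparse graphs -/

namespace Pool.Agent.Helper63.UP

open Pool.Agent.Helper83.OP Set

section Ball

variable {V : Type} {G : SimpleGraph V}

private theorem bfs (hG : G.Connected) (x : V) : ∃ par : V → V, ∀ v, G.dist x v ≠ 0 →
    G.Adj v (par v) ∧ G.dist x (par v) + 1 = G.dist x v := by
  have h : ∀ v, ∃ u, G.dist x v ≠ 0 → G.Adj v u ∧ G.dist x u + 1 = G.dist x v := by
    intro v
    by_cases h0 : G.dist x v = 0
    · exact ⟨v, fun h => absurd h0 h⟩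
    · obtain ⟨u, h1, h2⟩ := step_toward G hG v x (by rw [SimpleGraph.dist_comm]; exact h0)
      refine ⟨u, fun _ => ⟨h1, ?_⟩⟩
      rw [G.dist_comm (u := x), G.dist_comm (u := x)]
      exact h2
  choose par hpar using h
  exact ⟨par, hpar⟩

private theorem bfs_path (hG : G.Connected) (x : V) (par : V → V)
    (hpar : ∀ v, G.dist x v ≠ 0 → G.Adj v (par v) ∧ G.dist x (par v) + 1 = G.dist x v) :
    ∀ (n : ℕ) (v : V), G.dist x v = n → ∃ p : G.Walk x v, p.length = n ∧
      (∀ y ∈ p.support, G.dist x y ≤ n) ∧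
      ∀ f ∈ p.edges, ∃ y, G.dist x y ≠ 0 ∧ f = s(y, par y) := by
  intro n
  induction n with
  | zero =>
    intro v hv
    obtain rfl : x = v := (hG.dist_eq_zero_iff).1 hv
    refine ⟨SimpleGraph.Walk.nil, rfl, ?_, by simp⟩
    intro y hy
    rw [SimpleGraph.Walk.support_nil, List.mem_singleton] at hy
    rw [hy, SimpleGraph.dist_self]
  | succ n ih =>
    intro v hv
    have h0 : G.dist x v ≠ 0 := by omega
    obtain ⟨h1, h2⟩ := hpar v h0
    obtain ⟨p, p1, p2, p3⟩ := ih (par v) (by omega)
    refine ⟨p.concat h1.symm, ?_, ?_, ?_⟩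
    · rw [SimpleGraph.Walk.length_concat, p1]
    · intro y hy
      rw [SimpleGraph.Walk.support_concat, List.mem_append, List.mem_singleton] at hy
      rcases hy with hy | hy
      · have := p2 y hy
        omega
      · rw [hy, hv]
    · intro f hf
      rw [SimpleGraph.Walk.edges_concat, List.concat_eq_append, List.mem_append,
        List.mem_singleton] at hf
      rcases hf with hf | hf
      · exact p3 f hf
      · exact ⟨v, h0, by rw [hf]; exact Sym2.eq_swap⟩

/-- in a ball of radius at most half the radius, every edge joins a vertex to its parent -/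
private theorem ball_tree (hG : G.Connected) {R : V → ℕ} (hR : ∀ x y, R x ≤ R y + G.dist x y)
    {K : ℕ} (hK : Sparse G R K) (h2 : 2 ≤ K) (x : V) (par : V → V)
    (hpar : ∀ v, G.dist x v ≠ 0 → G.Adj v (par v) ∧ G.dist x (par v) + 1 = G.dist x v)
    {v w : V} (hv : G.dist x v ≤ R x / 2) (hw : G.dist x w ≤ R x / 2) (h : G.Adj v w) :
    (G.dist x v ≠ 0 ∧ w = par v) ∨ (G.dist x w ≠ 0 ∧ v = par w) := by
  classical
  by_contra hcon
  rw [not_or] at hcon
  obtain ⟨p, p1, p2, p3⟩ := bfs_path hG x par hpar _ v rfl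
  obtain ⟨p', p1', p2', p3'⟩ := bfs_path hG x par hpar _ w rfl
  set q : G.Walk w v := p'.reverse.append p with hq
  have hqs : ∀ y ∈ q.support, G.dist x y ≤ R x / 2 := by
    intro y hy
    rw [hq, SimpleGraph.Walk.mem_support_append_iff, SimpleGraph.Walk.support_reverse,
      List.mem_reverse] at hy
    rcases hy with hy | hy
    · exact (p2' y hy).trans hw
    · exact (p2 y hy).trans hv
  have hqe : s(v, w) ∉ q.edges := by
    intro hf
    rw [hq, SimpleGraph.Walk.edges_append, List.mem_append, SimpleGraph.Walk.edges_reverse,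
      List.mem_reverse] at hf
    have : ∃ y, G.dist x y ≠ 0 ∧ s(v, w) = s(y, par y) := by
      rcases hf with hf | hf
      · exact p3' _ hf
      · exact p3 _ hf
    obtain ⟨y, hy, he⟩ := this
    rw [Sym2.eq_iff] at he
    rcases he with ⟨e3, e4⟩ | ⟨e3, e4⟩
    · exact hcon.1 ⟨by rw [e3]; exact hy, by rw [e4, e3]⟩
    · exact hcon.2 ⟨by rw [e4]; exact hy, by rw [e3, e4]⟩
  have hql : q.length ≤ 2 * (R x / 2) := by
    rw [hq, SimpleGraph.Walk.length_append, SimpleGraph.Walk.length_reverse, p1, p1']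
    omega
  have hcyc : (SimpleGraph.Walk.cons h q.bypass).IsCycle := by
    rw [SimpleGraph.Walk.cons_isCycle_iff]
    exact ⟨q.bypass_isPath, fun hh => hqe (q.edges_bypass_subset_edges hh)⟩
  have h5 := hK v _ hcyc
  rw [SimpleGraph.Walk.length_cons] at h5
  have h6 := q.length_bypass_le_length
  have h7 := hR x v
  have h8 : 2 * (R v + 1) ≤ K * (R v + 1) := Nat.mul_le_mul_right _ h2
  omega

private theorem growth_aux [Finite V] (hG : G.Connected) (hdeg : ∀ v, 2 ≤ deg G v) {W : ℕ}
    (hW : ThreadsLE G W) (x : V) (par : V → V) (T : ℕ)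
    (hpar : ∀ v, G.dist x v ≠ 0 → G.Adj v (par v) ∧ G.dist x (par v) + 1 = G.dist x v)
    (htree : ∀ v w, G.dist x v ≤ T → G.dist x w ≤ T → G.Adj v w →
      (G.dist x v ≠ 0 ∧ w = par v) ∨ (G.dist x w ≠ 0 ∧ v = par w))
    (t : ℕ) (ht : t + W + 1 ≤ T) :
    2 * {v | G.dist x v = t}.ncard ≤ {v | G.dist x v = t + W + 1}.ncard := by
  classical
  have hle1 : ∀ v w, G.Adj v w → G.dist x w ≤ G.dist x v + 1 := by
    intro v w h
    have h1 : G.dist x w ≤ G.dist x v + G.dist v w := hG.dist_triangle
    rw [SimpleGraph.dist_eq_one_iff_adj.2 h] at h1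
    exact h1
  have hchild : ∀ v w, G.dist x v + 1 ≤ T → G.Adj v w → w ≠ par v →
      v = par w ∧ G.dist x w = G.dist x v + 1 := by
    intro v w hv h hne
    rcases htree v w (by omega) ((hle1 v w h).trans hv) h with ⟨_, h2⟩ | ⟨h1, h2⟩
    · exact absurd h2 hne
    · refine ⟨h2, ?_⟩
      have := (hpar w h1).2
      rw [← h2] at this
      omega
  -- children
  have hex : ∀ v, ∃ w, G.dist x v + 1 ≤ T → G.Adj v w ∧ par w = v ∧ G.dist x w = G.dist x v + 1 := by
    intro v
    by_cases hv : G.dist x v + 1 ≤ T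
    · have h1 : ∃ w ∈ G.neighborSet v, w ≠ par v := by
        by_contra hcon
        push Not at hcon
        have h2 : G.neighborSet v ⊆ {par v} := fun w hw => hcon w hw
        have h3 := Set.ncard_le_ncard h2 (Set.toFinite _)
        rw [Set.ncard_singleton] at h3
        have := hdeg v
        unfold deg at this
        omega
      obtain ⟨w, hw, hne⟩ := h1
      obtain ⟨h2, h3⟩ := hchild v w hv hw hne
      exact ⟨w, fun _ => ⟨hw, h2.symm, h3⟩⟩
    · exact ⟨v, fun h => absurd h hv⟩
  choose ch hch using hex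
  have hex2 : ∀ v, G.dist x v + 1 ≤ T → deg G v ≠ 2 →
      ∃ w, w ≠ ch v ∧ G.Adj v w ∧ par w = v ∧ G.dist x w = G.dist x v + 1 := by
    intro v hv hd
    have h1 : ∃ w ∈ G.neighborSet v, w ≠ par v ∧ w ≠ ch v := by
      by_contra hcon
      push Not at hcon
      have h2 : G.neighborSet v ⊆ {par v, ch v} := fun w hw => by
        by_cases h : w = par v
        · exact Or.inl h
        · exact Or.inr (hcon w hw h)
      have h3 := Set.ncard_le_ncard h2 (Set.toFinite _)
      have h4 := Set.ncard_insert_le (par v) {ch v}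
      rw [Set.ncard_singleton] at h4
      have := hdeg v
      unfold deg at this hd
      omega
    obtain ⟨w, hw, hne, hne2⟩ := h1
    obtain ⟨h2, h3⟩ := hchild v w hv hw hne
    exact ⟨w, hne2, hw, h2.symm, h3⟩
  -- iterates
  have hit : ∀ (k : ℕ) (v : V), G.dist x v + k ≤ T →
      G.dist x (ch^[k] v) = G.dist x v + k ∧ par^[k] (ch^[k] v) = v := by
    intro k
    induction k with
    | zero => intro v _; exact ⟨rfl, rfl⟩
    | succ k ih =>
      intro v hv
      obtain ⟨h1, h2⟩ := ih v (by omega)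
      obtain ⟨h3, h4, h5⟩ := hch (ch^[k] v) (by rw [h1]; omega)
      rw [Function.iterate_succ_apply' ch, Function.iterate_succ_apply par, h4]
      exact ⟨by rw [h5, h1]; omega, h2⟩
  have hpath : ∀ (k : ℕ) (v : V), G.dist x v + k ≤ T →
      ∃ (z : V) (p : G.Walk v z), p.IsPath ∧ p.length = k ∧
        ∀ y ∈ p.support, G.dist x v ≤ G.dist x y ∧ ∃ i ≤ k, y = ch^[i] v := by
    intro k
    induction k with
    | zero =>
      intro v _
      refine ⟨v, SimpleGraph.Walk.nil, SimpleGraph.Walk.IsPath.nil, rfl, ?_⟩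
      intro y hy
      rw [SimpleGraph.Walk.support_nil, List.mem_singleton] at hy
      exact ⟨by rw [hy], 0, le_rfl, by rw [hy]; rfl⟩
    | succ k ih =>
      intro v hv
      obtain ⟨h3, h4, h5⟩ := hch v (by omega)
      obtain ⟨z, p, p1, p2, p3⟩ := ih (ch v) (by omega)
      refine ⟨z, SimpleGraph.Walk.cons h3 p, ?_, ?_, ?_⟩
      · rw [SimpleGraph.Walk.cons_isPath_iff]
        refine ⟨p1, fun hh => ?_⟩
        have := (p3 v hh).1
        omega
      · rw [SimpleGraph.Walk.length_cons, p2]
      · intro y hy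
        rw [SimpleGraph.Walk.support_cons, List.mem_cons] at hy
        rcases hy with hy | hy
        · exact ⟨by rw [hy], 0, Nat.zero_le _, by rw [hy]; rfl⟩
        · obtain ⟨h6, i, hi, h7⟩ := p3 y hy
          exact ⟨by omega, i + 1, by omega, by rw [h7, Function.iterate_succ_apply]⟩
  -- two descendants
  have htwo : ∀ v, G.dist x v = t → ∃ a b, a ≠ b ∧ G.dist x a = t + W + 1 ∧
      G.dist x b = t + W + 1 ∧ par^[W + 1] a = v ∧ par^[W + 1] b = v := by
    intro v hv
    obtain ⟨z, p, p1, p2, p3⟩ := hpath W v (by omega)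
    have hbr : ∃ j ≤ W, deg G (ch^[j] v) ≠ 2 := by
      by_contra hcon
      push Not at hcon
      have h1 := hW _ _ p p1 (by
        intro y hy
        obtain ⟨_, i, hi, h7⟩ := p3 y hy
        rw [h7]
        exact hcon i hi)
      rw [SimpleGraph.Walk.length_support, p2] at h1
      omega
    obtain ⟨j, hj, hjd⟩ := hbr
    obtain ⟨h1, h2⟩ := hit j v (by omega)
    obtain ⟨c, c1, c2, c3, c4⟩ := hex2 (ch^[j] v) (by omega) hjd
    obtain ⟨k1, k2⟩ := hit (W - j) c (by omega)
    obtain ⟨k3, k4⟩ := hit (W + 1) v (by omega)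
    have e1 : ch^[W + 1] v = ch^[W - j] (ch^[j + 1] v) := by
      rw [← Function.iterate_add_apply]
      congr 1
      omega
    obtain ⟨k5, k6⟩ := hit (j + 1) v (by omega)
    obtain ⟨k7, k8⟩ := hit (W - j) (ch^[j + 1] v) (by omega)
    have e2 : ∀ z, par^[W + 1] z = par^[j + 1] (par^[W - j] z) := by
      intro z
      rw [← Function.iterate_add_apply]
      congr 1
      omega
    refine ⟨ch^[W + 1] v, ch^[W - j] c, ?_, by rw [k3]; omega, by rw [k1]; omega, k4, ?_⟩
    · intro he
      rw [e1] at he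
      have h9 := congrArg (par^[W - j]) he
      rw [k8, k2, Function.iterate_succ_apply'] at h9
      exact c1 h9.symm
    · rw [e2, k2, Function.iterate_succ_apply, c3, h2]
  choose! fa fb hab hda hdb hpa hpb using htwo
  have hA : (fa '' {v | G.dist x v = t}).ncard = {v | G.dist x v = t}.ncard :=
    Set.InjOn.ncard_image fun v hv v' hv' he => by rw [← hpa v hv, ← hpa v' hv', he]
  have hB : (fb '' {v | G.dist x v = t}).ncard = {v | G.dist x v = t}.ncard :=
    Set.InjOn.ncard_image fun v hv v' hv' he => by rw [← hpb v hv, ← hpb v' hv', he]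
  have hdis : Disjoint (fa '' {v | G.dist x v = t}) (fb '' {v | G.dist x v = t}) := by
    rw [Set.disjoint_left]
    rintro _ ⟨v, hv, rfl⟩ ⟨v', hv', he⟩
    have h1 : v' = v := by rw [← hpb v' hv', he, hpa v hv]
    subst h1
    exact hab v' hv' he.symm
  have hun := Set.ncard_union_eq hdis (Set.toFinite _) (Set.toFinite _)
  rw [hA, hB] at hun
  have hsub : fa '' {v | G.dist x v = t} ∪ fb '' {v | G.dist x v = t} ⊆
      {v | G.dist x v = t + W + 1} := by
    rintro _ (⟨v, hv, rfl⟩ | ⟨v, hv, rfl⟩)
    · exact hda v hv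
    · exact hdb v hv
  have := Set.ncard_le_ncard hsub (Set.toFinite _)
  omega

private theorem sphere_vol [Finite V] (hG : G.Connected) (hdeg : ∀ v, 2 ≤ deg G v) (x : V)
    (t : ℕ) : {v | G.dist x v = t + 1}.ncard ≤ 2 + vol G x t := by
  classical
  have := Fintype.ofFinite V
  obtain ⟨par, hpar⟩ := bfs hG x
  -- vol as a sum over spheres
  have hvol : ∀ t, vol G x t = ∑ v ∈ Finset.univ.filter (fun v => G.dist x v ≤ t),
      (deg G v - 2) := by
    intro t
    unfold vol
    refine Finset.sum_congr ?_ fun _ _ => rfl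
    ext v
    simp
  have hstep : ∀ t, vol G x (t + 1) =
      vol G x t + ∑ v ∈ Finset.univ.filter (fun v => G.dist x v = t + 1), (deg G v - 2) := by
    intro t
    rw [hvol, hvol, ← Finset.sum_union]
    · refine Finset.sum_congr ?_ fun _ _ => rfl
      ext v
      simp only [Finset.mem_filter, Finset.mem_univ, true_and, Finset.mem_union]
      omega
    · rw [Finset.disjoint_left]
      intro v h1 h2
      rw [Finset.mem_filter] at h1 h2
      omega
  have hcard : ∀ t, {v | G.dist x v = t}.ncard =
      (Finset.univ.filter (fun v => G.dist x v = t)).card := by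
    intro t
    rw [← Set.ncard_coe_finset]
    congr 1
    ext v
    simp
  induction t with
  | zero =>
    have h1 : {v | G.dist x v = 0 + 1} ⊆ G.neighborSet x := by
      intro v hv
      have : G.dist x v = 1 := hv
      exact SimpleGraph.dist_eq_one_iff_adj.1 this
    have h2 := Set.ncard_le_ncard h1 (Set.toFinite _)
    have h3 : deg G x - 2 ≤ vol G x 0 := by
      rw [hvol]
      refine Finset.single_le_sum (f := fun v => deg G v - 2) (fun _ _ => Nat.zero_le _) ?_
      simp
    have h4 : (G.neighborSet x).ncard = deg G x := rfl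
    omega
  | succ t ih =>
    have h1 : (Finset.univ.filter (fun v => G.dist x v = t + 1 + 1)).card ≤
        ∑ v ∈ Finset.univ.filter (fun v => G.dist x v = t + 1), (deg G v - 1) := by
      rw [Finset.card_eq_sum_card_fiberwise (f := par)
        (t := Finset.univ.filter (fun v => G.dist x v = t + 1))]
      · refine Finset.sum_le_sum fun v hv => ?_
        have hv' : G.dist x v = t + 1 := by simpa using hv
        have h0 : G.dist x v ≠ 0 := by omega
        obtain ⟨p1, p2⟩ := hpar v h0
        have hsub : ((Finset.univ.filter (fun v => G.dist x v = t + 1 + 1)).filter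
            (fun a => par a = v) : Set V) ⊆ G.neighborSet v \ {par v} := by
          intro w hw
          have hw' := Finset.mem_filter.1 (Finset.mem_coe.1 hw)
          obtain ⟨hw1, hw2⟩ := hw'
          have hw3 : G.dist x w = t + 1 + 1 := by simpa using hw1
          obtain ⟨q1, q2⟩ := hpar w (by omega)
          rw [hw2] at q1
          refine ⟨q1.symm, ?_⟩
          intro he
          rw [Set.mem_singleton_iff] at he
          rw [← he] at p2
          omega
        have h2 := Set.ncard_le_ncard hsub (Set.toFinite _)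
        rw [Set.ncard_coe_finset, Set.ncard_sdiff_singleton_of_mem (show par v ∈ G.neighborSet v from p1)]
          at h2
        exact h2
      · intro w hw
        have hw3 : G.dist x w = t + 1 + 1 := by simpa using hw
        obtain ⟨q1, q2⟩ := hpar w (by omega)
        simp only [Finset.coe_filter, Finset.mem_univ, true_and, Set.mem_ofPred_eq]
        omega
    have h2 : ∑ v ∈ Finset.univ.filter (fun v => G.dist x v = t + 1), (deg G v - 1) =
        ∑ v ∈ Finset.univ.filter (fun v => G.dist x v = t + 1), (deg G v - 2) +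
          (Finset.univ.filter (fun v => G.dist x v = t + 1)).card := by
      rw [Finset.card_eq_sum_ones, ← Finset.sum_add_distrib]
      refine Finset.sum_congr rfl fun v _ => ?_
      have := hdeg v
      omega
    have h3 := hstep t
    have h4 := hcard (t + 1)
    have h5 := hcard (t + 1 + 1)
    omega

/-- balls of small volume have small radius -/
theorem rad_le [Finite V] (hG : G.Connected) (hdeg : ∀ v, 2 ≤ deg G v) {W : ℕ}
    (hW : ThreadsLE G W) {R : V → ℕ} (hR : ∀ x y, R x ≤ R y + G.dist x y) {K : ℕ}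
    (hK : Sparse G R K) (h2 : 2 ≤ K) (n : ℕ) (hn : ∀ x t, t < R x → vol G x t ≤ n) (x : V) :
    R x ≤ 2 * (W + 1) * (Nat.log 2 (n + 2) + 1) := by
  obtain ⟨par, hpar⟩ := bfs hG x
  have hg : ∀ i, (W + 1) * i ≤ R x / 2 → 2 ^ i ≤ {v | G.dist x v = (W + 1) * i}.ncard := by
    intro i
    induction i with
    | zero =>
      intro _
      rw [pow_zero]
      refine (Set.ncard_pos (Set.toFinite _)).2 ⟨x, ?_⟩
      simp
    | succ i ih =>
      intro hi
      have e1 : (W + 1) * (i + 1) = (W + 1) * i + W + 1 := by ring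
      have h3 := ih (by omega)
      have h4 := growth_aux hG hdeg hW x par (R x / 2) hpar
        (fun v w hv hw h => ball_tree hG hR hK h2 x par hpar hv hw h) ((W + 1) * i) (by omega)
      rw [e1, pow_succ]
      omega
  obtain ⟨i, hi⟩ : ∃ i, i = R x / 2 / (W + 1) := ⟨_, rfl⟩
  have h3 : (W + 1) * i ≤ R x / 2 := by rw [hi]; exact Nat.mul_div_le _ _
  have h4 : R x / 2 < (W + 1) * (i + 1) := by
    rw [hi]
    have := Nat.lt_mul_div_succ (R x / 2) (Nat.succ_pos W)
    exact this
  have h5 : 2 ^ i ≤ n + 2 := by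
    rcases Nat.eq_zero_or_pos i with h0 | h0
    · rw [h0, pow_zero]
      omega
    · have h6 := hg i h3
      have hpos : 1 ≤ (W + 1) * i := Nat.mul_pos (Nat.succ_pos W) h0
      obtain ⟨t, ht⟩ : ∃ t, (W + 1) * i = t + 1 := ⟨(W + 1) * i - 1, by omega⟩
      rw [ht] at h6 h3
      have h7 := sphere_vol hG hdeg x t
      have h8 := hn x t (by omega)
      omega
  have h6 : i ≤ Nat.log 2 (n + 2) := Nat.le_log_of_pow_le one_lt_two h5
  have h7 : (W + 1) * (i + 1) ≤ (W + 1) * (Nat.log 2 (n + 2) + 1) :=
    Nat.mul_le_mul_left _ (by omega)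
  rw [mul_assoc]
  omega

end Ball

end Pool.Agent.Helper63.UP
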