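import Pool.Agent.Helper83.OP.Defs

/-!
# UP: volume, radius, threads (for MP_0dbcb7_co)
-/

namespace Pool.Agent.Helper63.UP

open Pool.Agent.Helper83.OP Set

/-- the volume of the ball of radius `t` around `x`: the sum of `deg - 2` -/
noncomputable def vol {V : Type} [Finite V] (G : SimpleGraph V) (x : V) (t : ℕ) : ℕ :=
  ∑ v ∈ (Set.toFinite {v | G.dist x v ≤ t}).toFinset, (deg G v - 2)

/-- the first radius at which the volume exceeds `n` -/
noncomputable def Rad {V : Type} [Finite V] (G : SimpleGraph V) (n : ℕ) (x : V) : ℕ :=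
  sInf {t | n < vol G x t}

/-- a path whose vertices all have degree two has at most `W` vertices -/
def ThreadsLE {V : Type} (G : SimpleGraph V) (W : ℕ) : Prop :=
  ∀ (u v : V) (p : G.Walk u v), p.IsPath → (∀ x ∈ p.support, deg G x = 2) → p.support.length ≤ W

end Pool.Agent.Helper63.UP
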