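import Pool.Agent.Helper63.UP.Forest
import Pool.Agent.Helper63.UP.Cells

/-! # The graph of the cells -/

namespace Pool.Agent.Helper63.UP

open Pool.Agent.Helper83.OP Set

section Exits

variable {V : Type} {G : SimpleGraph V} {R : V → ℕ}

/-- forest edges -/
def Cells.FE (C : Cells G R) (f : Sym2 V) : Prop := ∃ x, C.dep x ≠ 0 ∧ f = s(x, C.par x)

theorem Cells.toCtr (C : Cells G R) : ∀ v, ∃ p : G.Walk v (C.ctr v), p.length = C.dep v ∧
    (∀ x ∈ p.support, C.ctr x = C.ctr v) ∧ ∀ f ∈ p.edges, C.FE f := by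
  have key : ∀ (n : ℕ) (v : V), C.dep v = n → ∃ p : G.Walk v (C.ctr v), p.length = C.dep v ∧
      (∀ x ∈ p.support, C.ctr x = C.ctr v) ∧ ∀ f ∈ p.edges, C.FE f := by
    intro n
    induction n with
    | zero =>
      intro v hv
      have h := (C.dep_zero v).1 hv
      refine ⟨(SimpleGraph.Walk.nil : G.Walk v v).copy rfl h.symm, ?_, ?_, ?_⟩
      · rw [SimpleGraph.Walk.length_copy, hv]; rfl
      · intro x hx
        rw [SimpleGraph.Walk.support_copy, SimpleGraph.Walk.support_nil, List.mem_singleton] at hx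
        rw [hx]
      · intro f hf
        rw [SimpleGraph.Walk.edges_copy, SimpleGraph.Walk.edges_nil] at hf
        exact absurd hf List.not_mem_nil
    | succ n ih =>
      intro v hv
      have h0 : C.dep v ≠ 0 := by omega
      have h3 := C.par_dep v h0
      have h4 := C.par_ctr v h0
      obtain ⟨p, hp1, hp2, hp3⟩ := ih (C.par v) (by omega)
      refine ⟨(SimpleGraph.Walk.cons (C.par_adj v h0) p).copy rfl h4, ?_, ?_, ?_⟩
      · rw [SimpleGraph.Walk.length_copy, SimpleGraph.Walk.length_cons, hp1, h3]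
      · intro x hx
        rw [SimpleGraph.Walk.support_copy, SimpleGraph.Walk.support_cons, List.mem_cons] at hx
        rcases hx with hx | hx
        · rw [hx]
        · exact (hp2 x hx).trans h4
      · intro f hf
        rw [SimpleGraph.Walk.edges_copy, SimpleGraph.Walk.edges_cons, List.mem_cons] at hf
        rcases hf with hf | hf
        · exact ⟨v, h0, hf⟩
        · exact hp3 f hf
  exact fun v => key _ v rfl

theorem Cells.join (C : Cells G R) {u v : V} (h : C.ctr u = C.ctr v) : ∃ q : G.Walk u v,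
    q.length = C.dep u + C.dep v ∧ (∀ x ∈ q.support, C.ctr x = C.ctr v) ∧
      ∀ f ∈ q.edges, C.FE f := by
  obtain ⟨p, p1, p2, p3⟩ := C.toCtr u
  obtain ⟨p', p1', p2', p3'⟩ := C.toCtr v
  refine ⟨(p.copy rfl h).append p'.reverse, ?_, ?_, ?_⟩
  · rw [SimpleGraph.Walk.length_append, SimpleGraph.Walk.length_reverse,
      SimpleGraph.Walk.length_copy, p1, p1']
  · intro x hx
    rw [SimpleGraph.Walk.mem_support_append_iff, SimpleGraph.Walk.support_reverse,
      List.mem_reverse, SimpleGraph.Walk.support_copy] at hx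
    rcases hx with hx | hx
    · exact (p2 x hx).trans h
    · exact p2' x hx
  · intro f hf
    rw [SimpleGraph.Walk.edges_append, List.mem_append, SimpleGraph.Walk.edges_reverse,
      List.mem_reverse, SimpleGraph.Walk.edges_copy] at hf
    rcases hf with hf | hf
    · exact p3 f hf
    · exact p3' f hf

theorem Cells.not_FE (C : Cells G R) {u v : V} (h : C.ctr u ≠ C.ctr v) : ¬ C.FE s(u, v) := by
  rintro ⟨x, hx, he⟩
  have hpc := C.par_ctr x hx
  rw [Sym2.eq_iff] at he
  rcases he with ⟨e3, e4⟩ | ⟨e3, e4⟩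
  · exact h (by rw [e4, hpc, e3])
  · exact h (by rw [e3, hpc, e4])

/-- all cycles are long compared to the radii of their vertices -/
def Sparse (G : SimpleGraph V) (R : V → ℕ) (K : ℕ) : Prop :=
  ∀ (x : V) (Z : G.Walk x x), Z.IsCycle → K * (R x + 1) < Z.length

theorem Cells.tree (C : Cells G R) {K : ℕ} (hK : Sparse G R K) (h4 : 4 ≤ K) {u v : V}
    (h : G.Adj u v) (hc : C.ctr u = C.ctr v) :
    (C.dep u ≠ 0 ∧ v = C.par u) ∨ (C.dep v ≠ 0 ∧ u = C.par v) := by
  by_contra hcon
  rw [not_or] at hcon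
  obtain ⟨q, q1, q2, q3⟩ := C.join hc.symm
  refine no_close C.par_dep C.rad hK ∅ (by simpa using h4) h q (fun f hf => Or.inl (q3 f hf)) ?_
  intro hf
  obtain ⟨x, hx, he⟩ := q3 _ hf
  rw [Sym2.eq_iff] at he
  rcases he with ⟨e3, e4⟩ | ⟨e3, e4⟩
  · exact hcon.1 ⟨by rw [e3]; exact hx, by rw [e4, e3]⟩
  · exact hcon.2 ⟨by rw [e4]; exact hx, by rw [e3, e4]⟩

theorem Cells.two (C : Cells G R) {K : ℕ} (hK : Sparse G R K) (h8 : 8 ≤ K) {u v u' v' : V}
    (h : G.Adj u v) (h' : G.Adj u' v') (hu : C.ctr u = C.ctr u') (hv : C.ctr v = C.ctr v')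
    (hne : C.ctr u ≠ C.ctr v) : u = u' ∧ v = v' := by
  classical
  by_contra hcon
  obtain ⟨q, q1, q2, q3⟩ := C.join hv
  obtain ⟨q', q1', q2', q3'⟩ := C.join hu.symm
  refine no_close C.par_dep C.rad hK {s(u', v')} (by simpa using h8) h
    (q.append (SimpleGraph.Walk.cons h'.symm q')) ?_ ?_
  · intro f hf
    rw [SimpleGraph.Walk.edges_append, SimpleGraph.Walk.edges_cons, List.mem_append,
      List.mem_cons] at hf
    rcases hf with hf | hf | hf
    · exact Or.inl (q3 f hf)
    · right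
      rw [hf, Finset.mem_singleton]
      exact Sym2.eq_swap
    · exact Or.inl (q3' f hf)
  · intro hf
    rw [SimpleGraph.Walk.edges_append, SimpleGraph.Walk.edges_cons, List.mem_append,
      List.mem_cons] at hf
    rcases hf with hf | hf | hf
    · exact C.not_FE hne (q3 _ hf)
    · rw [Sym2.eq_iff] at hf
      rcases hf with ⟨h1, h2⟩ | hh
      · exact hne (by rw [h1, ← hv])
      · exact hcon hh
    · exact C.not_FE hne (q3' _ hf)

/-- the graph of the cells -/
def Cells.Q0 (C : Cells G R) : SimpleGraph V where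
  Adj s t := s ≠ t ∧ ∃ u v, G.Adj u v ∧ C.ctr u = s ∧ C.ctr v = t
  symm := ⟨fun s t ⟨h1, u, v, h2, h3, h4⟩ => ⟨h1.symm, v, u, h2.symm, h4, h3⟩⟩
  loopless := ⟨fun s ⟨h1, _⟩ => h1 rfl⟩

theorem Cells.Q0_ctr (C : Cells G R) {s t : V} (h : C.Q0.Adj s t) : C.ctr s = s ∧ C.ctr t = t := by
  obtain ⟨h1, u, v, h2, rfl, rfl⟩ := h
  exact ⟨C.ctr_ctr u, C.ctr_ctr v⟩

private theorem lift_aux (C : Cells G R) (φ : Sym2 V → Sym2 V)
    (hφ : ∀ s t, C.Q0.Adj s t → ∃ u v, G.Adj u v ∧ φ s(s, t) = s(u, v) ∧ C.ctr u = s ∧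
      C.ctr v = t) {s t : V} (p : C.Q0.Walk s t) : C.ctr s = s → ∃ q : G.Walk s t,
      ∀ f ∈ q.edges, C.FE f ∨ ∃ e ∈ p.edges, f = φ e := by
  induction p with
  | nil => intro _; exact ⟨SimpleGraph.Walk.nil, by simp⟩
  | @cons s c t h p ih =>
    intro hs
    obtain ⟨q, hq⟩ := ih (C.Q0_ctr h).2
    obtain ⟨u, v, h1, h2, h3, h4⟩ := hφ s c h
    obtain ⟨q1, -, -, hq1⟩ := C.join (u := s) (v := u) (by rw [h3, hs])
    obtain ⟨q2, -, -, hq2⟩ := C.join (u := v) (v := c) (by rw [h4, (C.Q0_ctr h).2])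
    refine ⟨q1.append (SimpleGraph.Walk.cons h1 (q2.append q)), ?_⟩
    intro f hf
    rw [SimpleGraph.Walk.edges_append, SimpleGraph.Walk.edges_cons, List.mem_append,
      List.mem_cons, SimpleGraph.Walk.edges_append, List.mem_append] at hf
    rw [SimpleGraph.Walk.edges_cons]
    rcases hf with hf | hf | hf | hf
    · exact Or.inl (hq1 f hf)
    · exact Or.inr ⟨s(s, c), List.mem_cons_self .., by rw [hf, h2]⟩
    · exact Or.inl (hq2 f hf)
    · rcases hq f hf with h5 | ⟨e, he, h5⟩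
      · exact Or.inl h5
      · exact Or.inr ⟨e, List.mem_cons_of_mem _ he, h5⟩

theorem Cells.girth (C : Cells G R) {K M : ℕ} (hK : Sparse G R K) (hM : 4 * (M + 1) ≤ K) {s : V}
    (c : C.Q0.Walk s s) (hc : c.IsCycle) (hl : c.length ≤ M) : False := by
  classical
  have hex : ∀ e : Sym2 V, ∃ f : Sym2 V, ∀ s t, e = s(s, t) → C.Q0.Adj s t →
      ∃ u v, G.Adj u v ∧ f = s(u, v) ∧ C.ctr u = s ∧ C.ctr v = t := by
    intro e
    induction e with
    | h a b =>
      by_cases hab : C.Q0.Adj a b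
      · obtain ⟨h1, u, v, h2, h3, h4⟩ := hab
        refine ⟨s(u, v), ?_⟩
        intro s t he _
        rw [Sym2.eq_iff] at he
        rcases he with ⟨rfl, rfl⟩ | ⟨rfl, rfl⟩
        · exact ⟨u, v, h2, rfl, h3, h4⟩
        · exact ⟨v, u, h2.symm, Sym2.eq_swap, h4, h3⟩
      · refine ⟨s(a, b), ?_⟩
        intro s t he hst
        rw [Sym2.eq_iff] at he
        rcases he with ⟨rfl, rfl⟩ | ⟨rfl, rfl⟩
        · exact absurd hst hab
        · exact absurd hst.symm hab
  choose φ hφ' using hex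
  have hφ : ∀ s t, C.Q0.Adj s t → ∃ u v, G.Adj u v ∧ φ s(s, t) = s(u, v) ∧ C.ctr u = s ∧
      C.ctr v = t := fun s t h => hφ' _ s t rfl h
  cases c with
  | nil => exact hc.ne_nil rfl
  | @cons _ t _ h p =>
    rw [SimpleGraph.Walk.cons_isCycle_iff] at hc
    rw [SimpleGraph.Walk.length_cons] at hl
    obtain ⟨hs, ht⟩ := C.Q0_ctr h
    obtain ⟨u, v, h1, h2, h3, h4⟩ := hφ s t h
    obtain ⟨q, hq⟩ := lift_aux C φ hφ p ht
    obtain ⟨q1, -, -, hq1⟩ := C.join (u := v) (v := t) (by rw [h4, ht])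
    obtain ⟨q2, -, -, hq2⟩ := C.join (u := s) (v := u) (by rw [h3, hs])
    have hne : C.ctr u ≠ C.ctr v := by rw [h3, h4]; exact h.ne
    refine no_close C.par_dep C.rad hK (p.edges.toFinset.image φ) ?_ h1
      (q1.append (q.append q2)) ?_ ?_
    · have e1 : (p.edges.toFinset.image φ).card ≤ p.length :=
        Finset.card_image_le.trans ((List.toFinset_card_le _).trans
          (le_of_eq p.length_edges))
      omega
    · intro f hf
      rw [SimpleGraph.Walk.edges_append, SimpleGraph.Walk.edges_append, List.mem_append,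
        List.mem_append] at hf
      rcases hf with hf | hf | hf
      · exact Or.inl (hq1 f hf)
      · rcases hq f hf with h5 | ⟨e, he, h5⟩
        · exact Or.inl h5
        · exact Or.inr (Finset.mem_image.2 ⟨e, by simpa using he, h5.symm⟩)
      · exact Or.inl (hq2 f hf)
    · intro hf
      rw [SimpleGraph.Walk.edges_append, SimpleGraph.Walk.edges_append, List.mem_append,
        List.mem_append] at hf
      rcases hf with hf | hf | hf
      · exact C.not_FE hne (hq1 _ hf)
      · rcases hq _ hf with h5 | ⟨e, he, h5⟩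
        · exact C.not_FE hne h5
        · have heQ : e ∈ C.Q0.edgeSet := SimpleGraph.Walk.edges_subset_edgeSet _ he
          revert he h5 heQ
          induction e with
          | h a b =>
            intro he h5 heQ
            obtain ⟨u', v', k1, k2, k3, k4⟩ := hφ a b heQ
            rw [k2, Sym2.eq_iff] at h5
            rcases h5 with ⟨r1, r2⟩ | ⟨r1, r2⟩
            · have e1 : s(s, t) = s(a, b) := by rw [← h3, ← h4, r1, r2, k3, k4]
              apply hc.2
              rw [e1]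
              exact he
            · have e1 : s(s, t) = s(a, b) := by
                rw [← h3, ← h4, r1, r2, k3, k4]; exact Sym2.eq_swap
              apply hc.2
              rw [e1]
              exact he
      · exact C.not_FE hne (hq2 _ hf)

private theorem sum_deg [Finite V] (S : Finset V) :
    ∑ v ∈ S, deg G v = {e : V × V | e.1 ∈ S ∧ G.Adj e.1 e.2}.ncard := by
  classical
  have := Fintype.ofFinite V
  have h1 : {e : V × V | e.1 ∈ S ∧ G.Adj e.1 e.2}.ncard =
      (Finset.univ.filter fun e : V × V => e.1 ∈ S ∧ G.Adj e.1 e.2).card := by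
    rw [← Set.ncard_coe_finset]
    congr 1
    ext e
    simp
  rw [h1, Finset.card_eq_sum_card_fiberwise (f := Prod.fst) (t := S)]
  · refine Finset.sum_congr rfl fun v hv => ?_
    rw [deg, ← Set.ncard_coe_finset]
    refine Set.ncard_congr (fun w _ => (v, w)) ?_ ?_ ?_
    · intro w hw
      simp only [Finset.coe_filter, Finset.mem_filter, Finset.mem_univ, true_and,
        Set.mem_ofPred_eq]
      exact ⟨⟨hv, hw⟩, trivial⟩
    · intro a b _ _ hab
      exact (Prod.mk.inj hab).2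
    · rintro ⟨a, b⟩ hab
      simp only [Finset.coe_filter, Finset.mem_univ, true_and, Finset.mem_filter,
        Set.mem_ofPred_eq] at hab
      obtain ⟨⟨_, h2⟩, rfl⟩ := hab
      exact ⟨b, h2, rfl⟩
  · intro e he
    simp only [Finset.coe_filter, Finset.mem_univ, true_and, Set.mem_ofPred_eq] at he
    simpa using he.1

theorem Cells.deg_Q0 [Finite V] (C : Cells G R) {K : ℕ} (hK : Sparse G R K) (h8 : 8 ≤ K)
    (h2 : ∀ v, 2 ≤ deg G v) {s : V} (hs : C.ctr s = s) :
    vol G s (R s) + 2 ≤ deg C.Q0 s := by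
  classical
  have := Fintype.ofFinite V
  set S : Finset V := Finset.univ.filter fun v => C.ctr v = s with hS
  have hmS : ∀ v, v ∈ S ↔ C.ctr v = s := fun v => by rw [hS]; simp
  have hvol : vol G s (R s) ≤ ∑ v ∈ S, (deg G v - 2) := by
    unfold vol
    refine Finset.sum_le_sum_of_subset fun v hv => ?_
    rw [Set.Finite.mem_toFinset] at hv
    rw [hmS]
    have := C.ball s v (by rw [hs]; exact hv)
    rw [this, hs]
  have hsum : ∑ v ∈ S, (deg G v - 2) + 2 * S.card = ∑ v ∈ S, deg G v := by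
    rw [mul_comm, ← smul_eq_mul, ← Finset.sum_const, ← Finset.sum_add_distrib]
    exact Finset.sum_congr rfl fun v _ => Nat.sub_add_cancel (h2 v)
  have hsplit : {e : V × V | e.1 ∈ S ∧ G.Adj e.1 e.2} ⊆
      {e : V × V | e.1 ∈ S ∧ e.2 ∈ S ∧ G.Adj e.1 e.2} ∪
      {e : V × V | e.1 ∈ S ∧ e.2 ∉ S ∧ G.Adj e.1 e.2} := by
    rintro e ⟨h1, h2⟩
    by_cases h : e.2 ∈ S
    · exact Or.inl ⟨h1, h, h2⟩
    · exact Or.inr ⟨h1, h, h2⟩
  have hsS : s ∈ S := (hmS s).2 hs
  have hin : {e : V × V | e.1 ∈ S ∧ e.2 ∈ S ∧ G.Adj e.1 e.2}.ncard ≤ 2 * (S.card - 1) := by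
    have hsub : {e : V × V | e.1 ∈ S ∧ e.2 ∈ S ∧ G.Adj e.1 e.2} ⊆
        (fun v => (v, C.par v)) '' ((S.erase s : Finset V) : Set V) ∪
          (fun v => (C.par v, v)) '' ((S.erase s : Finset V) : Set V) := by
      rintro ⟨v, w⟩ ⟨hv, hw, hvw⟩
      have hds : C.dep s = 0 := (C.dep_zero s).2 hs
      simp only at hv hw hvw
      rcases C.tree hK (by omega) hvw (((hmS v).1 hv).trans ((hmS w).1 hw).symm) with
        ⟨h1, h2⟩ | ⟨h1, h2⟩
      · left
        refine ⟨v, ?_, by simp only [h2]⟩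
        rw [Finset.coe_erase]
        refine ⟨hv, ?_⟩
        rintro rfl
        exact h1 hds
      · right
        refine ⟨w, ?_, by simp only [h2]⟩
        rw [Finset.coe_erase]
        refine ⟨hw, ?_⟩
        rintro rfl
        exact h1 hds
    have hcard : (S.erase s).card = S.card - 1 := Finset.card_erase_of_mem hsS
    refine (Set.ncard_le_ncard hsub (Set.toFinite _)).trans ?_
    refine (Set.ncard_union_le _ _).trans ?_
    have i1 := Set.ncard_image_le (f := fun v => (v, C.par v))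
      (s := ((S.erase s : Finset V) : Set V)) (Set.toFinite _)
    have i2 := Set.ncard_image_le (f := fun v => (C.par v, v))
      (s := ((S.erase s : Finset V) : Set V)) (Set.toFinite _)
    rw [Set.ncard_coe_finset, hcard] at i1 i2
    omega
  have hout : {e : V × V | e.1 ∈ S ∧ e.2 ∉ S ∧ G.Adj e.1 e.2}.ncard ≤ deg C.Q0 s := by
    unfold deg
    refine Set.ncard_le_ncard_of_injOn (fun e : V × V => C.ctr e.2) ?_ ?_ (Set.toFinite _)
    · rintro e ⟨h1, h2, h3⟩
      rw [hmS] at h1 h2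
      exact ⟨fun h => h2 h.symm, e.1, e.2, h3, h1, rfl⟩
    · rintro ⟨v, w⟩ ⟨h1, h2, h3⟩ ⟨v', w'⟩ ⟨h1', h2', h3'⟩ he
      simp only at h1 h2 h3 h1' h2' h3' he
      rw [hmS] at h1 h2 h1' h2'
      obtain ⟨e1, e2⟩ := C.two hK h8 h3 h3' (h1.trans h1'.symm) he
        (by rw [h1]; exact fun h => h2 h.symm)
      rw [e1, e2]
  have hle : {e : V × V | e.1 ∈ S ∧ G.Adj e.1 e.2}.ncard ≤
      2 * (S.card - 1) + deg C.Q0 s := by
    refine (Set.ncard_le_ncard hsplit (Set.toFinite _)).trans ?_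
    refine (Set.ncard_union_le _ _).trans ?_
    omega
  have hpos : 1 ≤ S.card := Finset.card_pos.2 ⟨s, hsS⟩
  rw [← sum_deg] at hle
  omega

end Exits

end Pool.Agent.Helper63.UP
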