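import Mathlib

/-! # Cycles with few edges outside a forest -/

namespace Pool.Agent.Helper63.UP

open Set

section Forest

variable {V : Type} {G : SimpleGraph V} {par : V → V} {dep R : V → ℕ}

theorem dep_iter (h2 : ∀ v, dep v ≠ 0 → dep (par v) + 1 = dep v) :
    ∀ (k : ℕ) (v : V), k ≤ dep v → dep (par^[k] v) + k = dep v := by
  intro k
  induction k with
  | zero => intro v _; rfl
  | succ k ih =>
    intro v hv
    have h0 : dep v ≠ 0 := by omega
    have h3 := h2 v h0
    have h4 := ih (par v) (by omega)
    rw [Function.iterate_succ_apply]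
    omega

/-- decomposition of a path: first an up-down path in the forest, then the rest -/
theorem path_dec [DecidableEq V] (h2 : ∀ v, dep v ≠ 0 → dep (par v) + 1 = dep v)
    (hR : ∀ (v : V) (k : ℕ), k ≤ dep v → k ≤ R v + R (par^[k] v))
    (E : Finset (Sym2 V)) (B : ℕ) : ∀ {u v : V} (p : G.Walk u v), p.IsPath →
    (∀ x ∈ p.support, R x ≤ B) →
    (∀ f ∈ p.edges, (∃ x, dep x ≠ 0 ∧ f = s(x, par x)) ∨ f ∈ E) →
    ∃ (i j l : ℕ) (w : V), w ∈ p.support ∧ i ≤ dep u ∧ j ≤ dep w ∧ par^[i] u = par^[j] w ∧
      (∀ k ≤ i, par^[k] u ∈ p.support) ∧ p.length = i + j + l ∧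
      l ≤ (E.filter (fun f => f ∈ p.edges)).card * (4 * B + 1) := by
  intro u v p
  induction p with
  | nil =>
    intro _ _ _
    refine ⟨0, 0, 0, _, by simp, Nat.zero_le _, Nat.zero_le _, rfl, ?_, by simp, Nat.zero_le _⟩
    intro k hk
    obtain rfl : k = 0 := by omega
    simp
  | @cons u u' v h q ih =>
    intro hp hB hE
    rw [SimpleGraph.Walk.cons_isPath_iff] at hp
    obtain ⟨i, j, l, w, hw, hi, hj, hij, hk, hlen, hl⟩ := ih hp.1
      (fun x hx => hB x (by rw [SimpleGraph.Walk.support_cons]; exact List.mem_cons_of_mem _ hx))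
      (fun f hf => hE f (by rw [SimpleGraph.Walk.edges_cons]; exact List.mem_cons_of_mem _ hf))
    have hqs : ∀ x ∈ q.support, x ∈ (SimpleGraph.Walk.cons h q).support := fun x hx => by
      rw [SimpleGraph.Walk.support_cons]; exact List.mem_cons_of_mem _ hx
    have hsub : (E.filter (fun f => f ∈ q.edges)).card ≤
        (E.filter (fun f => f ∈ (SimpleGraph.Walk.cons h q).edges)).card := by
      refine Finset.card_le_card fun f hf => ?_
      rw [Finset.mem_filter] at hf ⊢
      exact ⟨hf.1, by rw [SimpleGraph.Walk.edges_cons]; exact List.mem_cons_of_mem _ hf.2⟩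
    have hlenc : (SimpleGraph.Walk.cons h q).length = q.length + 1 := SimpleGraph.Walk.length_cons _ _
    rcases hE s(u, u') (by rw [SimpleGraph.Walk.edges_cons]; exact List.mem_cons_self ..) with
      ⟨x, hx0, hx⟩ | hf
    · rw [Sym2.eq_iff] at hx
      rcases hx with ⟨rfl, hx⟩ | ⟨hx, rfl⟩
      · -- up step
        refine ⟨i + 1, j, l, w, hqs w hw, ?_, hj, ?_, ?_, by omega,
          hl.trans (Nat.mul_le_mul_right _ hsub)⟩
        · have := h2 u hx0
          rw [hx] at hi
          omega
        · rw [Function.iterate_succ_apply, ← hx]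
          exact hij
        · intro k hk'
          rcases Nat.eq_zero_or_pos k with h0 | h0
          · rw [h0]
            simp
          · obtain ⟨k', rfl⟩ : ∃ k', k = k' + 1 := ⟨k - 1, by omega⟩
            rw [Function.iterate_succ_apply, ← hx]
            exact hqs _ (hk k' (by omega))
      · -- down step
        have hi0 : i = 0 := by
          by_contra hne
          have := hk 1 (by omega)
          rw [Function.iterate_one, ← hx] at this
          exact hp.2 this
        subst hi0
        rw [Function.iterate_zero, id_eq] at hij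
        refine ⟨0, j + 1, l, w, hqs w hw, Nat.zero_le _, ?_, ?_, ?_, by omega,
          hl.trans (Nat.mul_le_mul_right _ hsub)⟩
        · have := dep_iter h2 j w hj
          rw [← hij] at this
          omega
        · rw [Function.iterate_succ_apply', ← hij, Function.iterate_zero, id_eq]
          exact hx
        · intro k hk'
          obtain rfl : k = 0 := by omega
          simp
    · -- an extra edge
      refine ⟨0, 0, q.length + 1, u, by simp, Nat.zero_le _, Nat.zero_le _, rfl, ?_, by omega, ?_⟩
      · intro k hk'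
        obtain rfl : k = 0 := by omega
        simp
      · have hcard : (E.filter (fun f => f ∈ q.edges)).card + 1 ≤
            (E.filter (fun f => f ∈ (SimpleGraph.Walk.cons h q).edges)).card := by
          have hnot : s(u, u') ∉ E.filter (fun f => f ∈ q.edges) := by
            rw [Finset.mem_filter]
            rintro ⟨_, h3⟩
            exact hp.2 (SimpleGraph.Walk.fst_mem_support_of_mem_edges _ h3)
          rw [← Finset.card_insert_of_notMem hnot]
          refine Finset.card_le_card fun f hf' => ?_
          rw [Finset.mem_insert] at hf'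
          rw [Finset.mem_filter, SimpleGraph.Walk.edges_cons]
          rcases hf' with rfl | hf'
          · exact ⟨hf, List.mem_cons_self ..⟩
          · rw [Finset.mem_filter] at hf'
            exact ⟨hf'.1, List.mem_cons_of_mem _ hf'.2⟩
        have hi4 : i ≤ 2 * B := by
          have e1 := hR u' i hi
          have e2 := hB u' (hqs _ q.start_mem_support)
          have e3 := hB _ (hqs _ (hk i le_rfl))
          omega
        have hj4 : j ≤ 2 * B := by
          have e1 := hR w j hj
          rw [← hij] at e1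
          have e2 := hB w (hqs _ hw)
          have e3 := hB _ (hqs _ (hk i le_rfl))
          omega
        refine le_trans ?_ (Nat.mul_le_mul_right (4 * B + 1) hcard)
        rw [add_mul, one_mul, hlen]
        omega

theorem path_len [DecidableEq V] (h2 : ∀ v, dep v ≠ 0 → dep (par v) + 1 = dep v)
    (hR : ∀ (v : V) (k : ℕ), k ≤ dep v → k ≤ R v + R (par^[k] v))
    (E : Finset (Sym2 V)) (B : ℕ) {u v : V} (p : G.Walk u v) (hp : p.IsPath)
    (hB : ∀ x ∈ p.support, R x ≤ B)
    (hE : ∀ f ∈ p.edges, (∃ x, dep x ≠ 0 ∧ f = s(x, par x)) ∨ f ∈ E) :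
    p.length + 1 ≤ (E.card + 1) * (4 * B + 1) := by
  obtain ⟨i, j, l, w, hw, hi, hj, hij, hk, hlen, hl⟩ := path_dec h2 hR E B p hp hB hE
  have hi4 : i ≤ 2 * B := by
    have e1 := hR u i hi
    have e2 := hB u p.start_mem_support
    have e3 := hB _ (hk i le_rfl)
    omega
  have hj4 : j ≤ 2 * B := by
    have e1 := hR w j hj
    rw [← hij] at e1
    have e2 := hB w hw
    have e3 := hB _ (hk i le_rfl)
    omega
  have hl2 : l ≤ E.card * (4 * B + 1) :=
    hl.trans (Nat.mul_le_mul_right _ (Finset.card_filter_le _ _))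
  rw [add_mul, one_mul, hlen]
  omega

/-- In a graph all of whose cycles are long compared to `R`, the ends of an edge are not joined by
a walk with few edges outside the forest. -/
theorem no_close (h2 : ∀ v, dep v ≠ 0 → dep (par v) + 1 = dep v)
    (hR : ∀ (v : V) (k : ℕ), k ≤ dep v → k ≤ R v + R (par^[k] v)) {K : ℕ}
    (hK : ∀ (x : V) (Z : G.Walk x x), Z.IsCycle → K * (R x + 1) < Z.length)
    (E : Finset (Sym2 V)) (hE : 4 * (E.card + 1) ≤ K) {v w : V} (h : G.Adj v w) (q : G.Walk w v)
    (hq : ∀ f ∈ q.edges, (∃ x, dep x ≠ 0 ∧ f = s(x, par x)) ∨ f ∈ E)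
    (hf : s(v, w) ∉ q.edges) : False := by
  classical
  obtain ⟨Z, hZ1, hZ2, hZ3⟩ : ∃ Z : G.Walk v v, Z.IsCycle ∧
      (∀ x ∈ q.bypass.support, x ∈ Z.support) ∧ Z.length = q.bypass.length + 1 := by
    refine ⟨SimpleGraph.Walk.cons h q.bypass, ?_, ?_, SimpleGraph.Walk.length_cons _ _⟩
    · rw [SimpleGraph.Walk.cons_isCycle_iff]
      exact ⟨q.bypass_isPath, fun hh => hf (q.edges_bypass_subset_edges hh)⟩
    · intro x hx
      rw [SimpleGraph.Walk.support_cons]
      exact List.mem_cons_of_mem _ hx
  -- the vertex with the largest radius on the cycle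
  obtain ⟨x, hx, hmax⟩ := Finset.exists_max_image q.bypass.support.toFinset R
    ⟨v, by simp⟩
  rw [List.mem_toFinset] at hx
  have hlen := path_len h2 hR E (R x) q.bypass q.bypass_isPath
    (fun y hy => hmax y (by simpa using hy))
    (fun f hf' => hq f (q.edges_bypass_subset_edges hf'))
  have hxZ : x ∈ Z.support := hZ2 x hx
  have h5 := hK x (Z.rotate x hxZ) (hZ1.rotate hxZ)
  rw [SimpleGraph.Walk.length_rotate, hZ3] at h5
  have h6 : (E.card + 1) * (4 * R x + 1) ≤ K * (R x + 1) := by
    calc (E.card + 1) * (4 * R x + 1) ≤ (E.card + 1) * (4 * (R x + 1)) :=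
          Nat.mul_le_mul_left _ (by omega)
      _ = 4 * (E.card + 1) * (R x + 1) := by ring
      _ ≤ K * (R x + 1) := Nat.mul_le_mul_right _ hE
  omega

end Forest

end Pool.Agent.Helper63.UP
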