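import Pool.Agent.Helper63.UP.Ball
import Pool.Agent.Helper63.UP.GB
import Pool.Agent.Helper83.OP.Nlc
import Pool.Agent.Helper83.OP.OutGe
import Pool.Agent.Helper83.OP.ExistsClus
import Pool.Agent.Helper83.OP.Tidy

/-! # Short cycles in connected graphs -/

namespace Pool.Agent.Helper63.UP

open Pool.Agent.Helper83.OP Set

section Growth

variable {V : Type} [Finite V] {H : SimpleGraph V} {N : Set V} {ρ : ℕ}

private theorem gr_sum (H : SimpleGraph V) (q : ℕ) (C : Set V) (h3 : ∀ v ∈ C, q ≤ deg H v) :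
    q * C.ncard ≤ {e : V × V | e.1 ∈ C ∧ H.Adj e.1 e.2}.ncard := by
  classical
  have := Fintype.ofFinite V
  have h1 : {e : V × V | e.1 ∈ C ∧ H.Adj e.1 e.2}.ncard =
      (Finset.univ.filter fun e : V × V => e.1 ∈ C ∧ H.Adj e.1 e.2).card := by
    rw [← Set.ncard_coe_finset]
    congr 1
    ext e
    simp
  have h2 : C.ncard = (Finset.univ.filter fun v : V => v ∈ C).card := by
    rw [← Set.ncard_coe_finset]
    congr 1
    ext e
    simp
  rw [h1, h2, Finset.card_eq_sum_card_fiberwise (f := Prod.fst)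
    (t := Finset.univ.filter fun v : V => v ∈ C)]
  · rw [mul_comm, ← smul_eq_mul]
    apply Finset.card_nsmul_le_sum
    intro v hv
    have hv' : v ∈ C := by simpa using hv
    refine (h3 v hv').trans (le_of_eq ?_)
    rw [deg, ← Set.ncard_coe_finset]
    refine Set.ncard_congr (fun w _ => (v, w)) ?_ ?_ ?_
    · intro w hw
      simp only [Finset.coe_filter, Finset.mem_filter, Finset.mem_univ, true_and,
        Set.mem_ofPred_eq]
      exact ⟨⟨hv', hw⟩, trivial⟩
    · intro a b _ _ hab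
      exact (Prod.mk.inj hab).2
    · rintro ⟨a, b⟩ hab
      simp only [Finset.coe_filter, Finset.mem_univ, true_and, Finset.mem_filter,
        Set.mem_ofPred_eq] at hab
      obtain ⟨⟨_, h2⟩, rfl⟩ := hab
      exact ⟨b, h2, rfl⟩
  · intro e he
    simp only [Finset.coe_filter, Finset.mem_univ, true_and, Set.mem_ofPred_eq] at he ⊢
    exact he.1

/-- the vertices of the cluster of `s` at depth `i` -/
private def lev (K : Clus H N ρ) (s : V) (i : ℕ) : Set V := {v | v ∈ K.cl s ∧ K.d v = i}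

private theorem gr_step (K : Clus H N ρ) (hK : K.Tidy) (s : V) (q : ℕ)
    (hN : ∀ v w, H.Adj v w → w ∈ N)
    (h3 : ∀ v ∈ K.cl s, q ≤ deg H v) (i : ℕ) (hi : i < ρ) :
    q * (lev K s i).ncard ≤ (lev K s (i + 1)).ncard + (lev K s i).ncard := by
  refine (gr_sum H q (lev K s i) (fun v hv => h3 v hv.1)).trans ?_
  have hsub : {e : V × V | e.1 ∈ lev K s i ∧ H.Adj e.1 e.2} ⊆
      (fun w => (K.par w, w)) '' lev K s (i + 1) ∪
        (fun v => (v, K.par v)) '' lev K s i := by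
    rintro ⟨v, w⟩ ⟨⟨⟨hvN, hvs⟩, hvd⟩, hvw⟩
    simp only at hvN hvs hvd hvw
    have hw : w ∈ N := hN v w hvw
    have hws : K.ctr w = s := by
      rw [← hvs]
      exact K.near v hvN w hw hvw (by omega)
    rcases hK.tree v hvN w hw hvw (hvs.trans hws.symm) with ⟨h1, h2⟩ | ⟨h1, h2⟩
    · right
      exact ⟨v, ⟨⟨hvN, hvs⟩, hvd⟩, by simp only [h2]⟩
    · left
      have h4 := K.par_d w hw h1
      rw [← h2] at h4
      exact ⟨w, ⟨⟨hw, hws⟩, by omega⟩, by simp only [h2]⟩
  refine (Set.ncard_le_ncard hsub (Set.toFinite _)).trans ?_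
  refine (Set.ncard_union_le _ _).trans ?_
  exact Nat.add_le_add (Set.ncard_image_le (Set.toFinite _)) (Set.ncard_image_le (Set.toFinite _))

private theorem grow (K : Clus H N ρ) (hK : K.Tidy) (s : V) (hs : s ∈ K.Ctr) (q : ℕ)
    (hN : ∀ v w, H.Adj v w → w ∈ N)
    (h3 : ∀ v ∈ K.cl s, q + 1 ≤ deg H v) :
    q ^ ρ ≤ (K.cl s).ncard := by
  have hss : s ∈ K.cl s := ⟨hs.1, hs.2⟩
  have key : ∀ i, i ≤ ρ → q ^ i ≤ (lev K s i).ncard := by
    intro i
    induction i with
    | zero =>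
      intro _
      have hds : K.d s = 0 := by
        have := K.d_ctr s hs.1
        rwa [hs.2] at this
      rw [pow_zero]
      exact (Set.ncard_pos (Set.toFinite _)).mpr ⟨s, hss, hds⟩
    | succ i ih =>
      intro hi
      have h1 := gr_step K hK s (q + 1) hN h3 i (by omega)
      have h2 := ih (by omega)
      rw [add_mul, one_mul] at h1
      rw [pow_succ, mul_comm]
      have h4 := Nat.mul_le_mul_left q h2
      omega
  refine (key ρ le_rfl).trans ?_
  exact Set.ncard_le_ncard (fun v hv => hv.1) (Set.toFinite _)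

end Growth

section Main

variable {V : Type}

private theorem lift_len {G : SimpleGraph V} {R : V → ℕ} (C : Cells G R) (D : ℕ)
    (hD : ∀ v, C.dep v ≤ D) {s t : V} (p : C.Q0.Walk s t) : C.ctr s = s → ∃ q : G.Walk s t,
      q.length ≤ p.length * (2 * D + 1) ∧ ∀ x ∈ q.support, C.ctr x ∈ p.support := by
  induction p with
  | nil =>
    intro hs
    refine ⟨SimpleGraph.Walk.nil, by simp, ?_⟩
    intro x hx
    rw [SimpleGraph.Walk.support_nil, List.mem_singleton] at hx
    rw [hx, hs]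
    simp
  | @cons s c t h p ih =>
    intro hs
    have hc := (C.Q0_ctr h).2
    obtain ⟨q, hq1, hq2⟩ := ih hc
    obtain ⟨_, u, v, h2, h3, h4⟩ := id h
    obtain ⟨q1, a1, b1, -⟩ := C.join (u := s) (v := u) (by rw [h3, hs])
    obtain ⟨q2, a2, b2, -⟩ := C.join (u := v) (v := c) (by rw [h4, hc])
    have ds : C.dep s = 0 := (C.dep_zero s).2 hs
    have dc : C.dep c = 0 := (C.dep_zero c).2 hc
    refine ⟨q1.append (SimpleGraph.Walk.cons h2 (q2.append q)), ?_, ?_⟩
    · rw [SimpleGraph.Walk.length_append, SimpleGraph.Walk.length_cons,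
        SimpleGraph.Walk.length_append, SimpleGraph.Walk.length_cons, a1, a2, ds, dc, add_mul,
        one_mul]
      have := hD u
      have := hD v
      omega
    · intro x hx
      rw [SimpleGraph.Walk.mem_support_append_iff, SimpleGraph.Walk.support_cons, List.mem_cons,
        SimpleGraph.Walk.mem_support_append_iff] at hx
      rw [SimpleGraph.Walk.support_cons, List.mem_cons]
      rcases hx with hx | hx | hx | hx
      · left
        rw [b1 x hx, h3]
      · left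
        rw [hx, h3]
      · right
        rw [b2 x hx, hc]
        exact p.start_mem_support
      · exact Or.inr (hq2 x hx)

theorem rad_lip [Finite V] {G : SimpleGraph V} (hG : G.Connected) {n : ℕ}
    (htot : ∃ x t, n < vol G x t) : (∀ x, n < vol G x (Rad G n x)) ∧
      (∀ x t, t < Rad G n x → vol G x t ≤ n) ∧ ∀ x y, Rad G n x ≤ Rad G n y + G.dist x y := by
  obtain ⟨x0, t0, h0⟩ := htot
  have hmono : ∀ x y t, vol G y t ≤ vol G x (t + G.dist x y) := by
    intro x y t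
    unfold vol
    refine Finset.sum_le_sum_of_subset fun v hv => ?_
    rw [Set.Finite.mem_toFinset] at hv ⊢
    have h1 : G.dist x v ≤ G.dist x y + G.dist y v := hG.dist_triangle
    have h2 : G.dist y v ≤ t := hv
    show G.dist x v ≤ t + G.dist x y
    omega
  have hne : ∀ x, {t | n < vol G x t}.Nonempty := fun x =>
    ⟨t0 + G.dist x x0, lt_of_lt_of_le h0 (hmono x x0 t0)⟩
  refine ⟨fun x => Nat.sInf_mem (hne x), ?_, ?_⟩
  · intro x t ht
    by_contra hcon
    exact absurd (Nat.sInf_le (show t ∈ {t | n < vol G x t} from not_le.1 hcon)) (not_le.2 ht)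
  · intro x y
    refine Nat.sInf_le ?_
    have h1 : n < vol G y (Rad G n y) := Nat.sInf_mem (hne y)
    exact lt_of_lt_of_le h1 (hmono x y _)

theorem short_cycle_conn [Finite V] (ρ : ℕ) (G : SimpleGraph V) (n W : ℕ)
    (e0 : Sym2 V) (X : Sym2 V → Sym2 V → Prop) (hG : G.Connected) (hdeg : ∀ v, 2 ≤ deg G v)
    (hW : ThreadsLE G W) (htot : ∃ x t, n < vol G x t)
    (hX : ∀ f ∈ (G.deleteEdges {e0}).edgeSet,
      {f' | f' ∈ (G.deleteEdges {e0}).edgeSet ∧ X f f'}.ncard ≤ 1)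
    (hP : PlanarLike (G.deleteEdges {e0}) X)
    (hnum : 24 * (4 * ((4 * ρ + 1) * (8 * (W + 1) * (Nat.log 2 (n + 2) + 1) + 1)) + 1) + 4 <
      (n + 2) ^ ρ) :
    ∃ (x : V) (Z : G.Walk x x), Z.IsCycle ∧ Z.length ≤ (32 * ρ + 12) * (Rad G n x + 1) := by
  classical
  by_contra hcon
  push Not at hcon
  obtain ⟨hR1, hR2, hR3⟩ := rad_lip hG htot
  have hK : Sparse G (Rad G n) (32 * ρ + 12) := fun x Z hZ => hcon x Z hZ
  obtain ⟨C⟩ := exists_cells G hG (Rad G n) hR3
  set D : ℕ := 2 * (2 * (W + 1) * (Nat.log 2 (n + 2) + 1)) with hD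
  have hdep : ∀ v, C.dep v ≤ D := by
    intro v
    have h1 := C.rad v _ le_rfl
    have h2 := rad_le hG hdeg hW hR3 hK (by omega) n hR2 v
    have h3 := rad_le hG hdeg hW hR3 hK (by omega) n hR2 (C.par^[C.dep v] v)
    omega
  set N : Set V := {s | C.ctr s = s} with hN
  have hNadj : ∀ v w, C.Q0.Adj v w → w ∈ N := fun v w h => (C.Q0_ctr h).2
  have hNadj' : ∀ v w, C.Q0.Adj v w → v ∈ N := fun v w h => (C.Q0_ctr h).1
  obtain ⟨K2⟩ := exists_clus C.Q0 N ρ
  have hT : K2.Tidy := clus_tidy K2 (fun u c hc hl => by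
    exact absurd (C.girth hK (M := 8 * ρ + 2) (by omega) c hc hl) id)
  have hdegQ : ∀ s ∈ N, n + 3 ≤ deg C.Q0 s := by
    intro s hs
    have h1 := C.deg_Q0 hK (by omega) hdeg hs
    have h2 := hR1 s
    omega
  set p := K2.Ctr.ncard with hp
  have hppos : 1 ≤ p := by
    obtain ⟨x0, _, _⟩ := htot
    refine (Set.ncard_pos (Set.toFinite _)).2 ⟨K2.ctr (C.ctr x0), ?_, ?_⟩
    · exact K2.ctr_mem _ (C.ctr_ctr x0)
    · exact K2.ctr_ctr _ (C.ctr_ctr x0)
  set B2 : Set (V × V) :=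
    {e : V × V | e.1 ∈ N ∧ e.2 ∈ N ∧ C.Q0.Adj e.1 e.2 ∧ K2.ctr e.1 ≠ K2.ctr e.2} with hB2
  have := Fintype.ofFinite V
  -- lower bound
  have hlow : (n + 2) ^ ρ * p ≤ B2.ncard := by
    have h1 : p = K2.Ctr.toFinset.card := Set.ncard_eq_toFinset_card' _
    rw [ncard_fiber B2 K2.Ctr.toFinset (fun e : V × V => K2.ctr e.1) (fun e he => by
      rw [Set.mem_toFinset]
      exact ⟨K2.ctr_mem _ he.1, K2.ctr_ctr _ he.1⟩), h1, mul_comm, ← smul_eq_mul,
      ← Finset.sum_const]
    refine Finset.sum_le_sum fun s hs => ?_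
    rw [Set.mem_toFinset] at hs
    have h2 := grow K2 hT s hs (n + 2) hNadj (fun v hv => hdegQ v hv.1)
    have h3 := out_ge K2 hT s s (fun v hv _ _ => by have := hdegQ v hv; omega)
      (fun v hv => by have := hdegQ v hv; omega) s hs
    have h4 : (K2.hOut s).ncard = 0 := by
      rw [Set.ncard_eq_zero (Set.toFinite _)]
      ext e
      simp only [Set.mem_empty_iff_false, iff_false]
      rintro ⟨_, _, h5, h6⟩
      exact h5 (hNadj _ _ h6)
    have h5 : ({s, s} ∩ K2.cl s : Set V).ncard ≤ 1 := by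
      refine (Set.ncard_le_ncard Set.inter_subset_left (Set.toFinite _)).trans ?_
      simp
    have h6 : (K2.cOut s).ncard ≤ {x | x ∈ B2 ∧ K2.ctr x.1 = s}.ncard := by
      refine Set.ncard_le_ncard ?_ (Set.toFinite _)
      rintro e ⟨a1, a2, a3, a4, a5⟩
      exact ⟨⟨a1, a2, a3, by rw [a4]; exact fun h => a5 h.symm⟩, a4⟩
    omega
  -- the graph of the super cells
  induction e0 with
  | h a0 b0 =>
  set Bad : Set V := {K2.ctr (C.ctr a0), K2.ctr (C.ctr b0)} with hBad
  have hBad2 : Bad.ncard ≤ 2 := by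
    rw [hBad]
    exact (Set.ncard_insert_le _ _).trans (by rw [Set.ncard_singleton])
  let Q : SimpleGraph V :=
    { Adj := fun s t => s ≠ t ∧ s ∉ Bad ∧ t ∉ Bad ∧
        ∃ a b, C.Q0.Adj a b ∧ K2.ctr a = s ∧ K2.ctr b = t
      symm := ⟨fun s t ⟨h1, h2, h3, a, b, h4, h5, h6⟩ => ⟨h1.symm, h3, h2, b, a, h4.symm, h6, h5⟩⟩
      loopless := ⟨fun s h => h.1 rfl⟩ }
  have hgb := gb (G.deleteEdges {s(a0, b0)}) Q X 1 ((4 * ρ + 1) * (2 * D + 1)) hX hP
    (fun x => K2.ctr (C.ctr x)) K2.Ctr (by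
      rintro s t ⟨h1, h2, h3, a, b, h4, rfl, rfl⟩
      have ha : a ∈ N := hNadj' _ _ h4
      have hb : b ∈ N := hNadj _ _ h4
      refine ⟨⟨K2.ctr_mem _ ha, K2.ctr_ctr _ ha⟩, ⟨K2.ctr_mem _ hb, K2.ctr_ctr _ hb⟩, ?_⟩
      obtain ⟨p1, c1, d1, -⟩ := clus_path K2 a ha
      obtain ⟨p2, c2, d2, -⟩ := clus_path K2 b hb
      obtain ⟨q, hq1, hq2⟩ := lift_len C D hdep (p1.append (SimpleGraph.Walk.cons h4 p2.reverse))
        (K2.ctr_mem _ ha)
      have hsup : ∀ x ∈ q.support, K2.ctr (C.ctr x) = K2.ctr a ∨ K2.ctr (C.ctr x) = K2.ctr b := by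
        intro x hx
        have h5 := hq2 x hx
        rw [SimpleGraph.Walk.mem_support_append_iff, SimpleGraph.Walk.support_cons, List.mem_cons,
          SimpleGraph.Walk.support_reverse, List.mem_reverse] at h5
        rcases h5 with h5 | h5 | h5
        · exact Or.inl (d1 _ h5).2
        · exact Or.inl (by rw [h5])
        · exact Or.inr (d2 _ h5).2
      have hne : ∀ e ∈ q.edges, e ∉ ({s(a0, b0)} : Set (Sym2 V)) := by
        intro e he hee
        rw [Set.mem_singleton_iff] at hee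
        rw [hee] at he
        have h6 := SimpleGraph.Walk.fst_mem_support_of_mem_edges _ he
        rcases hsup a0 h6 with h7 | h7
        · exact h2 (by rw [← h7, hBad]; exact Or.inl rfl)
        · exact h3 (by rw [← h7, hBad]; exact Or.inl rfl)
      refine ⟨q.toDeleteEdges _ hne, ?_, ?_⟩
      · have h7 : (q.toDeleteEdges _ hne).length = q.length := by
          simp [SimpleGraph.Walk.toDeleteEdges]
        rw [h7]
        refine hq1.trans (Nat.mul_le_mul_right _ ?_)
        rw [SimpleGraph.Walk.length_append, SimpleGraph.Walk.length_cons,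
          SimpleGraph.Walk.length_reverse, c1, c2]
        have := K2.d_le a ha
        have := K2.d_le b hb
        omega
      · intro x hx
        apply hsup
        simpa [SimpleGraph.Walk.toDeleteEdges] using hx)
  have hup : B2.ncard ≤ {e : V × V | Q.Adj e.1 e.2}.ncard + 4 * p := by
    have hinj : Set.InjOn (fun e : V × V => (K2.ctr e.1, K2.ctr e.2)) B2 := by
      rintro ⟨v, w⟩ ⟨h1, h2, h3, h4⟩ ⟨v', w'⟩ ⟨h1', h2', h3', h4'⟩ h
      simp only [Prod.mk.injEq] at h
      obtain ⟨e1, e2⟩ := hT.two v h1 w h2 v' h1' w' h2' h3 h3' h.1 h.2 h4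
      rw [e1, e2]
    have h1 : ((fun e : V × V => (K2.ctr e.1, K2.ctr e.2)) '' B2) ⊆
        {e : V × V | Q.Adj e.1 e.2} ∪ ((Bad ×ˢ K2.Ctr) ∪ (K2.Ctr ×ˢ Bad)) := by
      rintro _ ⟨⟨v, w⟩, ⟨h1, h2, h3, h4⟩, rfl⟩
      by_cases hb1 : K2.ctr v ∈ Bad
      · right; left
        exact ⟨hb1, K2.ctr_mem _ h2, K2.ctr_ctr _ h2⟩
      by_cases hb2 : K2.ctr w ∈ Bad
      · right; right
        exact ⟨⟨K2.ctr_mem _ h1, K2.ctr_ctr _ h1⟩, hb2⟩
      left
      exact ⟨h4, hb1, hb2, v, w, h3, rfl, rfl⟩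
    have h2 := Set.ncard_le_ncard h1 (Set.toFinite _)
    rw [hinj.ncard_image] at h2
    have h3 := Set.ncard_union_le {e : V × V | Q.Adj e.1 e.2} ((Bad ×ˢ K2.Ctr) ∪ (K2.Ctr ×ˢ Bad))
    have h4 := Set.ncard_union_le (Bad ×ˢ K2.Ctr) (K2.Ctr ×ˢ Bad)
    rw [Set.ncard_prod, Set.ncard_prod, ← hp] at h4
    have h5 : Bad.ncard * p ≤ 2 * p := Nat.mul_le_mul_right _ hBad2
    have h6 : p * Bad.ncard ≤ 2 * p := by rw [mul_comm]; exact h5
    omega
  have hfin : (n + 2) ^ ρ * p ≤ (24 * (4 * 1 * ((4 * ρ + 1) * (2 * D + 1)) + 1) + 4) * p := by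
    rw [add_mul]
    exact hlow.trans (hup.trans (Nat.add_le_add_right hgb _))
  have hfin2 := Nat.le_of_mul_le_mul_right hfin hppos
  have e1 : 2 * D + 1 = 8 * (W + 1) * (Nat.log 2 (n + 2) + 1) + 1 := by rw [hD]; ring
  rw [e1, mul_one] at hfin2
  omega

end Main

end Pool.Agent.Helper63.UP
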