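import Pool.Agent.Helper63.UP.Super
import Pool.Agent.Helper95.UP.Defs

/-! # Transfer to the component; the final statement of M1 -/

namespace Pool.Agent.Helper63.UP

open Pool.Agent.Helper83.OP Set

section Transfer

variable {V : Type}

private theorem walk_nbr {G : SimpleGraph V} {u w : V} (p : G.Walk u w) (h : u ≠ w) :
    ∃ z, G.Adj u z := by
  cases p with
  | nil => exact absurd rfl h
  | cons h _ => exact ⟨_, h⟩

/-- degrees in an induced subgraph closed under neighbours -/
private theorem deg_induce (G : SimpleGraph V) (S : Set V) (hS : ∀ v ∈ S, ∀ w, G.Adj v w → w ∈ S)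
    (v : S) : deg (G.induce S) v = deg G v := by
  unfold deg
  refine Set.ncard_congr (fun w _ => (w : V)) ?_ ?_ ?_
  · intro w hw
    exact hw
  · intro a b _ _ h
    exact Subtype.ext h
  · intro w hw
    exact ⟨⟨w, hS v v.2 w hw⟩, hw, rfl⟩

private theorem planar_transfer (H : SimpleGraph V) (X : Sym2 V → Sym2 V → Prop)
    (hP : PlanarLike H X) (S : Set V) (H' : SimpleGraph S) (hH : ∀ a b : S, H'.Adj a b → H.Adj a b) :
    PlanarLike H' (fun f f' => X (f.map (↑)) (f'.map (↑))) := by
  intro Γ R hR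
  let φ : H' →g H := ⟨fun a => (a : V), fun {a b} h => hH a b h⟩
  let Γ' : SimpleGraph V := Γ.map (Function.Embedding.subtype _)
  have hΓ' : ∀ u v, Γ'.Adj u v → ∃ s t, Γ.Adj s t ∧ (s : V) = u ∧ (t : V) = v := by
    intro u v h
    rw [SimpleGraph.map_adj] at h
    exact h
  choose fs ft hst hs ht using hΓ'
  let R' : ∀ u v, Γ'.Adj u v → H.Walk u v := fun u v h =>
    ((R _ _ (hst u v h)).map φ).copy (hs u v h) (ht u v h)
  have key := hP Γ' R' (by
    intro u v u' v' h h' n1 n2 n3 n4
    obtain ⟨k1, k2⟩ := hR _ _ _ _ (hst u v h) (hst u' v' h')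
      (fun e => n1 (by rw [← hs u v h, ← hs u' v' h', e]))
      (fun e => n2 (by rw [← hs u v h, ← ht u' v' h', e]))
      (fun e => n3 (by rw [← ht u v h, ← hs u' v' h', e]))
      (fun e => n4 (by rw [← ht u v h, ← ht u' v' h', e]))
    refine ⟨?_, ?_⟩
    · intro x hx hx'
      simp only [R', SimpleGraph.Walk.support_copy, SimpleGraph.Walk.support_map,
        List.mem_map] at hx hx'
      obtain ⟨a, ha, rfl⟩ := hx
      obtain ⟨b, hb, hab⟩ := hx'
      have : b = a := Subtype.ext hab
      subst this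
      exact k1 b ha hb
    · intro f hf f' hf' hXf
      simp only [R', SimpleGraph.Walk.edges_copy, SimpleGraph.Walk.edges_map,
        List.mem_map] at hf hf'
      obtain ⟨a, ha, rfl⟩ := hf
      obtain ⟨b, hb, rfl⟩ := hf'
      exact k2 a ha b hb hXf)
  refine ⟨?_, ?_⟩
  · rintro ⟨B, b1, b2, b3⟩
    apply key.1
    refine ⟨fun i => (fun a : S => (a : V)) '' B i, ?_, ?_, ?_⟩
    · intro i
      let ψ : Γ.induce (B i) →g Γ'.induce ((fun a : S => (a : V)) '' B i) :=
        ⟨fun a => ⟨(a : S), a, a.2, rfl⟩, fun {a b} h => by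
          show Γ'.Adj _ _
          rw [SimpleGraph.map_adj]
          exact ⟨a, b, h, rfl, rfl⟩⟩
      refine SimpleGraph.Connected.map ψ ?_ (b1 i)
      rintro ⟨_, a, ha, rfl⟩
      exact ⟨⟨a, ha⟩, rfl⟩
    · intro i j hij
      rw [Set.disjoint_left]
      rintro _ ⟨a, ha, rfl⟩ ⟨b, hb, hab⟩
      have : b = a := Subtype.ext hab
      subst this
      exact Set.disjoint_left.1 (b2 i j hij) ha hb
    · intro i j hij
      obtain ⟨s, hs1, t, ht1, hst1⟩ := b3 i j hij
      refine ⟨s, ⟨s, hs1, rfl⟩, t, ⟨t, ht1, rfl⟩, ?_⟩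
      rw [SimpleGraph.map_adj]
      exact ⟨s, t, hst1, rfl, rfl⟩
  · rintro ⟨a, b, ha, hb, hab, hadj⟩
    apply key.2
    refine ⟨fun i => (a i : V), fun i => (b i : V), ?_, ?_, ?_, ?_⟩
    · intro i j h
      exact ha (Subtype.ext h)
    · intro i j h
      exact hb (Subtype.ext h)
    · intro i j h
      exact hab i j (Subtype.ext h)
    · intro i j
      rw [SimpleGraph.map_adj]
      exact ⟨a i, b j, hadj i j, rfl, rfl⟩

/-- a connected finite graph with all degrees at least two has a cycle -/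
private theorem exists_cycle [Finite V] (G : SimpleGraph V) (hG : G.Connected)
    (hdeg : ∀ v, 2 ≤ deg G v) : ∃ (x : V) (Z : G.Walk x x), Z.IsCycle := by
  classical
  have := Fintype.ofFinite V
  by_contra hcon
  push Not at hcon
  have hac : G.IsAcyclic := fun x Z hZ => hcon x Z hZ
  have ht : G.IsTree := ⟨hG, hac⟩
  have h1 := ht.card_edgeFinset
  have h2 := G.sum_degrees_eq_twice_card_edges
  have h3 : ∀ v, deg G v = G.degree v := by
    intro v
    unfold deg
    rw [Set.ncard_eq_toFinset_card']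
    rfl
  have h4 : 2 * Fintype.card V ≤ ∑ v, G.degree v := by
    rw [mul_comm, ← smul_eq_mul, ← Finset.card_univ, ← Finset.sum_const]
    exact Finset.sum_le_sum fun v _ => by rw [← h3]; exact hdeg v
  omega

/-- comparison of the volumes -/
private theorem vol_comp [Finite V] (G : SimpleGraph V) (S : Set V)
    (hS : ∀ v ∈ S, ∀ w, G.Adj v w → w ∈ S) (x : S) (t : ℕ) :
    Pool.Agent.Helper95.UP.vol G (Pool.Agent.Helper95.UP.ball G (x : V) t) ≤
      3 * vol (G.induce S) x t := by
  classical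
  have := Fintype.ofFinite V
  have hball : ∀ y, y ∈ Pool.Agent.Helper95.UP.ball G (x : V) t →
      ∃ y' : S, (y' : V) = y ∧ (G.induce S).dist x y' ≤ t := by
    rintro y ⟨p, hp⟩
    have hsup : ∀ {a b : V} (q : G.Walk a b), a ∈ S → ∀ z ∈ q.support, z ∈ S := by
      intro a b q
      induction q with
      | nil =>
        intro ha z hz
        rw [SimpleGraph.Walk.support_nil, List.mem_singleton] at hz
        rw [hz]; exact ha
      | @cons a c b h q ih =>
        intro ha z hz
        rw [SimpleGraph.Walk.support_cons, List.mem_cons] at hz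
        rcases hz with hz | hz
        · rw [hz]; exact ha
        · exact ih (hS a ha c h) z hz
    have hps := hsup p x.2
    refine ⟨⟨y, hps y p.end_mem_support⟩, rfl, ?_⟩
    have h1 : (p.induce S hps).length = p.length := by
      have h2 := congrArg SimpleGraph.Walk.length (p.map_induce hps)
      rw [SimpleGraph.Walk.length_map] at h2
      exact h2
    calc (G.induce S).dist x ⟨y, hps y p.end_mem_support⟩ ≤ (p.induce S hps).length :=
          SimpleGraph.dist_le _
      _ ≤ t := by rw [h1]; exact hp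
  set T : Finset S := (Set.toFinite {v | (G.induce S).dist x v ≤ t}).toFinset with hT
  have hsub : {e : V × V | e.1 ∈ Pool.Agent.Helper95.UP.ball G (x : V) t ∧ 3 ≤ deg G e.1 ∧
      G.Adj e.1 e.2} ⊆ (((T.filter (fun v : S => 3 ≤ deg G (v : V))).biUnion
        (fun v : S => ((Set.toFinite (G.neighborSet (v : V))).toFinset.image
          (fun w => ((v : V), w)))) : Finset (V × V)) : Set (V × V)) := by
    rintro ⟨y, w⟩ ⟨h1, h2, h3⟩
    obtain ⟨y', rfl, h4⟩ := hball y h1
    rw [Finset.mem_coe, Finset.mem_biUnion]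
    refine ⟨y', ?_, ?_⟩
    · rw [Finset.mem_filter, hT, Set.Finite.mem_toFinset]
      exact ⟨h4, h2⟩
    · rw [Finset.mem_image]
      exact ⟨w, by rw [Set.Finite.mem_toFinset]; exact h3, rfl⟩
  unfold Pool.Agent.Helper95.UP.vol
  refine (Set.ncard_le_ncard hsub (Finset.finite_toSet _)).trans ?_
  rw [Set.ncard_coe_finset]
  refine Finset.card_biUnion_le.trans ?_
  have h1 : ∑ v ∈ T.filter (fun v : S => 3 ≤ deg G (v : V)),
      ((Set.toFinite (G.neighborSet (v : V))).toFinset.image (fun w => ((v : V), w))).card ≤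
      ∑ v ∈ T.filter (fun v : S => 3 ≤ deg G (v : V)), 3 * (deg (G.induce S) v - 2) := by
    refine Finset.sum_le_sum fun v hv => ?_
    rw [Finset.mem_filter] at hv
    refine Finset.card_image_le.trans ?_
    rw [← Set.ncard_eq_toFinset_card, deg_induce G S hS v]
    have h2 : (G.neighborSet (v : V)).ncard = deg G (v : V) := rfl
    omega
  refine h1.trans ?_
  rw [← Finset.mul_sum]
  refine Nat.mul_le_mul_left _ ?_
  unfold vol
  exact Finset.sum_le_sum_of_subset (Finset.filter_subset _ _)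

private theorem numeric (A r n : ℕ) (hn : n = Nat.sqrt r / 3)
    (hr : (3 * ((864 * (4 * (2 * A + 2) + 1) + 28) * (3 * 9 ^ A))) ^ 2 ≤ r) :
    24 * (4 * ((4 * (2 * A + 2) + 1) *
      (8 * (r ^ A + 1 + 1) * (Nat.log 2 (n + 2) + 1) + 1)) + 1) + 4 < (n + 2) ^ (2 * A + 2) := by
  obtain ⟨m, hm⟩ : ∃ m, m = n + 2 := ⟨_, rfl⟩
  rw [← hm]
  set c := 864 * (4 * (2 * A + 2) + 1) + 28 with hc
  have h1 : Nat.sqrt r < 3 * (n + 1) := by
    rw [hn]; omega
  have h2 : r < (Nat.sqrt r + 1) * (Nat.sqrt r + 1) := Nat.lt_succ_sqrt r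
  have h3 : Nat.sqrt r + 1 ≤ 3 * m := by omega
  have h4 : r ≤ 9 * m ^ 2 := by nlinarith
  have h5 : r ^ A ≤ 9 ^ A * m ^ (2 * A) := by
    calc r ^ A ≤ (9 * m ^ 2) ^ A := Nat.pow_le_pow_left h4 A
      _ = 9 ^ A * m ^ (2 * A) := by rw [mul_pow, ← pow_mul]
  have hm1 : 1 ≤ m := by omega
  have hmp : 1 ≤ m ^ (2 * A) := Nat.one_le_pow _ _ hm1
  have h9 : 1 ≤ 9 ^ A := Nat.one_le_pow _ _ (by norm_num)
  have h6 : r ^ A + 1 + 1 ≤ 3 * 9 ^ A * m ^ (2 * A) := by
    have : 1 ≤ 9 ^ A * m ^ (2 * A) := Nat.mul_pos h9 hmp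
    nlinarith
  have h7 : Nat.log 2 m + 1 ≤ m := by
    have := Nat.log_lt_self 2 (show m ≠ 0 by omega)
    omega
  have h8 : 3 * 9 ^ A * c < m := by
    have k1 : 3 * (c * (3 * 9 ^ A)) ≤ Nat.sqrt r := by
      rw [Nat.le_sqrt]
      calc 3 * (c * (3 * 9 ^ A)) * (3 * (c * (3 * 9 ^ A))) = (3 * (c * (3 * 9 ^ A))) ^ 2 := by ring
        _ ≤ r := hr
    nlinarith
  obtain ⟨w, hw⟩ : ∃ w, w = r ^ A + 1 + 1 := ⟨_, rfl⟩
  obtain ⟨l, hl⟩ : ∃ l, l = Nat.log 2 m + 1 := ⟨_, rfl⟩
  rw [← hw, ← hl]
  rw [← hw] at h6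
  rw [← hl] at h7
  have hw1 : 1 ≤ w := by omega
  have hl1 : 1 ≤ l := by omega
  have hwl : 1 ≤ w * l := Nat.mul_pos hw1 hl1
  obtain ⟨d, hd⟩ : ∃ d, d = 4 * (2 * A + 2) + 1 := ⟨_, rfl⟩
  rw [← hd]
  have hc' : c = 864 * d + 28 := by rw [hc, hd]
  calc 24 * (4 * (d * (8 * w * l + 1)) + 1) + 4 = 768 * (d * (w * l)) + 96 * d + 28 := by ring
    _ ≤ 768 * (d * (w * l)) + 96 * (d * (w * l)) + 28 * (w * l) := by nlinarith
    _ = c * (w * l) := by rw [hc']; ring
    _ ≤ c * (3 * 9 ^ A * m ^ (2 * A) * m) := Nat.mul_le_mul_left _ (Nat.mul_le_mul h6 h7)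
    _ = (3 * 9 ^ A * c) * (m ^ (2 * A) * m) := by ring
    _ < m * (m ^ (2 * A) * m) := Nat.mul_lt_mul_of_pos_right h8 (Nat.mul_pos hmp hm1)
    _ = m ^ (2 * A + 2) := by ring

end Transfer

/-- **M1.** A cycle which is short in comparison with the radius of the balls of small volume around
one of its vertices. -/
theorem short_cycle (A : ℕ) : ∃ K r0 : ℕ, 1 ≤ K ∧ ∀ (V : Type) [Finite V] (G : SimpleGraph V)
    (e0 : Sym2 V) (X : Sym2 V → Sym2 V → Prop) (r : ℕ), e0 ∈ G.edgeSet →
    (∀ f f', X f f' → X f' f) →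
    (∀ f ∈ G.edgeSet, f ≠ e0 → {f' | f' ∈ G.edgeSet ∧ f' ≠ e0 ∧ X f f'}.ncard ≤ 1) →
    PlanarLike (G.deleteEdges {e0}) X → (∀ v, deg G v ≠ 1) → r0 ≤ r →
    (∀ u v (p : G.Walk u v), p.IsPath → u ≠ v → 3 ≤ deg G u → 3 ≤ deg G v →
      (∀ x ∈ p.support, x ≠ u → x ≠ v → deg G x = 2) → r ≤ p.length) →
    (∀ u v (p : G.Walk u v), p.IsPath → (∀ x ∈ p.support, x ≠ u → x ≠ v → deg G x = 2) →
      p.length ≤ r ^ A) →
    ∃ (x : V) (C : G.Walk x x), C.IsCycle ∧
      Pool.Agent.Helper95.UP.vol G (Pool.Agent.Helper95.UP.ball G x (C.length / K)) ≤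
        Nat.sqrt r := by
  set K0 : ℕ := 32 * (2 * A + 2) + 12 with hK0
  refine ⟨2 * K0 + 1, max 2 ((3 * ((864 * (4 * (2 * A + 2) + 1) + 28) * (3 * 9 ^ A))) ^ 2),
    by omega, ?_⟩
  intro V _ G e0 X r he0 hsym hX hP hdeg1 hr hlow hhigh
  classical
  have hr2 : 2 ≤ r := (le_max_left _ _).trans hr
  have hr3 := (le_max_right _ _).trans hr
  induction e0 with
  | h a0 b0 =>
  -- the component
  set S : Set V := {v | G.Reachable a0 v} with hSdef
  have hS : ∀ v ∈ S, ∀ w, G.Adj v w → w ∈ S := fun v hv w h => hv.trans h.reachable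
  have ha0 : a0 ∈ S := SimpleGraph.Reachable.refl a0
  have hb0 : b0 ∈ S := hS a0 ha0 b0 he0
  obtain ⟨G', hG'⟩ : ∃ G' : SimpleGraph S, G' = G.induce S := ⟨_, rfl⟩
  have hconn : G'.Connected := by
    have hpre : G'.Preconnected := by
      have key : ∀ (n : ℕ) (v : V) (hv : v ∈ S) (p : G.Walk a0 v), p.length = n →
          G'.Reachable ⟨a0, ha0⟩ ⟨v, hv⟩ := by
        intro n v hv p _
        have hsup : ∀ z ∈ p.support, z ∈ S := fun z hz => (p.takeUntil z hz).reachable
        have := (p.induce S hsup).reachable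
        rw [hG']
        exact this
      intro u v
      obtain ⟨p⟩ := u.2
      obtain ⟨q⟩ := v.2
      exact (key _ _ u.2 p rfl).symm.trans (key _ _ v.2 q rfl)
    exact { preconnected := hpre, nonempty := ⟨⟨a0, ha0⟩⟩ }
  have hdegS : ∀ v : S, deg G' v = deg G (v : V) := fun v => by rw [hG']; exact deg_induce G S hS v
  have hdeg2 : ∀ v : S, 2 ≤ deg G' v := by
    intro v
    rw [hdegS]
    have h1 := hdeg1 v
    have h2 : deg G (v : V) ≠ 0 := by
      unfold deg
      rw [Ne, Set.ncard_eq_zero (Set.toFinite _)]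
      intro hemp
      have h3 : ∃ w, G.Adj v w := by
        by_cases hv : (v : V) = a0
        · exact ⟨b0, by rw [hv]; exact he0⟩
        · obtain ⟨p⟩ := v.2
          exact walk_nbr p.reverse hv
      obtain ⟨w, hw⟩ := h3
      have : w ∈ G.neighborSet (v : V) := hw
      rw [hemp] at this
      exact this
    omega
  let hom : G' →g G := ⟨fun a => (a : V), fun {a b} h => by rw [hG'] at h; exact h⟩
  have hinj : Function.Injective hom := fun a b h => Subtype.ext h
  have hvol : ∀ (x : S) t, Pool.Agent.Helper95.UP.vol G (Pool.Agent.Helper95.UP.ball G (x : V) t) ≤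
      3 * vol G' x t := fun x t => by rw [hG']; exact vol_comp G S hS x t
  obtain ⟨n, hn⟩ : ∃ n, n = Nat.sqrt r / 3 := ⟨_, rfl⟩
  have hn3 : 3 * n ≤ Nat.sqrt r := by rw [hn]; omega
  by_cases htot : ∃ (x : S) (t : ℕ), n < vol G' x t
  · -- the main case
    have hW : ThreadsLE G' (r ^ A + 1) := by
      intro u v p hp hd
      have h1 := hhigh _ _ (p.map hom) (hp.map hinj) (by
        intro x hx _ _
        rw [SimpleGraph.Walk.support_map, List.mem_map] at hx
        obtain ⟨y, hy, rfl⟩ := hx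
        have h2 := hd y hy
        rw [hdegS] at h2
        exact h2)
      rw [SimpleGraph.Walk.length_map] at h1
      rw [SimpleGraph.Walk.length_support]
      omega
    have hmapinj : Function.Injective (Sym2.map (fun a : S => (a : V))) :=
      Sym2.map.injective Subtype.val_injective
    have hedge : ∀ f : Sym2 S, f ∈ (G'.deleteEdges {s(⟨a0, ha0⟩, ⟨b0, hb0⟩)}).edgeSet →
        f.map (fun a : S => (a : V)) ∈ G.edgeSet ∧ f.map (fun a : S => (a : V)) ≠ s(a0, b0) := by
      intro f hf
      rw [SimpleGraph.edgeSet_deleteEdges] at hf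
      obtain ⟨h1, h2⟩ := hf
      refine ⟨?_, ?_⟩
      · induction f with
        | h a b =>
          have : G'.Adj a b := h1
          rw [hG'] at this
          exact this
      · intro he
        apply h2
        rw [Set.mem_singleton_iff]
        apply hmapinj
        rw [he]
        rfl
    obtain ⟨x, Z, hZ, hZl⟩ := short_cycle_conn (2 * A + 2) G' n (r ^ A + 1)
      s(⟨a0, ha0⟩, ⟨b0, hb0⟩) (fun f f' => X (f.map (↑)) (f'.map (↑))) hconn hdeg2 hW htot
      (by
        intro f hf
        obtain ⟨h1, h2⟩ := hedge f hf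
        refine le_trans ?_ (hX _ h1 h2)
        refine Set.ncard_le_ncard_of_injOn (fun f' => f'.map (fun a : S => (a : V))) ?_
          (fun a _ b _ h => hmapinj h) (Set.toFinite _)
        rintro f' ⟨h3, h4⟩
        obtain ⟨h5, h6⟩ := hedge f' h3
        exact ⟨h5, h6, h4⟩)
      (planar_transfer (G.deleteEdges {s(a0, b0)}) X hP S _ (by
        intro a b h
        have := hedge s(a, b) h
        rw [SimpleGraph.deleteEdges_adj]
        exact ⟨this.1, this.2⟩))
      (numeric A r n hn hr3)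
    obtain ⟨hR1, hR2, hR3⟩ := rad_lip hconn htot
    rcases Nat.eq_zero_or_pos (Rad G' n x) with h0 | hpos
    · -- a very short cycle has a vertex of degree two
      rw [h0] at hZl
      have hex : ∃ y ∈ Z.support, deg G' y = 2 := by
        cases Z with
        | nil => exact absurd rfl hZ.ne_nil
        | @cons _ y _ h q =>
          by_contra hcon
          push Not at hcon
          have d1 := hcon x (by simp)
          have d2 := hcon y (by simp)
          have e1 := hdeg2 x
          have e2 := hdeg2 y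
          rw [hdegS] at d1 d2 e1 e2
          have hxy : G.Adj (x : V) (y : V) := by rw [hG'] at h; exact h
          have h1 := hlow _ _ (SimpleGraph.Walk.cons hxy SimpleGraph.Walk.nil) (by
            rw [SimpleGraph.Walk.cons_isPath_iff]
            exact ⟨SimpleGraph.Walk.IsPath.nil, by simpa using hxy.ne⟩) hxy.ne (by omega) (by omega)
            (by
              intro z hz z1 z2
              simp only [SimpleGraph.Walk.support_cons, SimpleGraph.Walk.support_nil,
                List.mem_cons, List.not_mem_nil, or_false] at hz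
              rcases hz with hz | hz
              · exact absurd hz z1
              · exact absurd hz z2)
          simp at h1
          omega
      obtain ⟨y, hy, hyd⟩ := hex
      refine ⟨(y : V), (Z.rotate y hy).map hom, (hZ.rotate hy).map hinj, ?_⟩
      have hl : ((Z.rotate y hy).map hom).length / (2 * K0 + 1) = 0 := by
        rw [SimpleGraph.Walk.length_map, SimpleGraph.Walk.length_rotate]
        apply Nat.div_eq_of_lt
        omega
      rw [hl]
      have h1 : Pool.Agent.Helper95.UP.vol G (Pool.Agent.Helper95.UP.ball G (y : V) 0) = 0 := by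
        unfold Pool.Agent.Helper95.UP.vol
        rw [Set.ncard_eq_zero (Set.toFinite _)]
        ext e
        simp only [Set.mem_empty_iff_false, iff_false]
        rintro ⟨⟨p, hp⟩, h2, h3⟩
        have h4 := SimpleGraph.Walk.eq_of_length_eq_zero (Nat.le_zero.1 hp)
        rw [← h4] at h2
        rw [hdegS] at hyd
        omega
      rw [h1]
      exact Nat.zero_le _
    · refine ⟨(x : V), Z.map hom, hZ.map hinj, ?_⟩
      rw [SimpleGraph.Walk.length_map]
      have hlt : Z.length / (2 * K0 + 1) < Rad G' n x := by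
        rw [Nat.div_lt_iff_lt_mul (by omega)]
        calc Z.length ≤ K0 * (Rad G' n x + 1) := hZl
          _ < Rad G' n x * (2 * K0 + 1) := by nlinarith
      have h1 := hR2 x _ hlt
      have h2 := hvol x (Z.length / (2 * K0 + 1))
      show Pool.Agent.Helper95.UP.vol G (Pool.Agent.Helper95.UP.ball G (x : V) _) ≤ _
      omega
  · -- small total volume
    push Not at htot
    obtain ⟨x, Z, hZ⟩ := exists_cycle G' hconn hdeg2
    refine ⟨(x : V), Z.map hom, hZ.map hinj, ?_⟩
    have h1 := htot x ((Z.map hom).length / (2 * K0 + 1))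
    have h2 := hvol x ((Z.map hom).length / (2 * K0 + 1))
    show Pool.Agent.Helper95.UP.vol G (Pool.Agent.Helper95.UP.ball G (x : V) _) ≤ _
    omega

end Pool.Agent.Helper63.UP
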